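import Mathlib

/-!
# Exponents that split off the `p`-part

PROOF of `exists_PQ`.  Write `n = p ^ r * m` with `¬ p ∣ m` (`Nat.exists_eq_pow_mul_and_not_dvd`).
By the Chinese remainder theorem (`Nat.chineseRemainder`, coprime moduli `p ^ r`, `m`) there is `u` with
`u ≡ 1 [MOD p ^ r]`, `u ≡ 0 [MOD m]`, and `v` with `v ≡ 0 [MOD p ^ r]`, `v ≡ 1 [MOD m]`.  All claims
follow modulo `p ^ r` and modulo `m` (`Nat.modEq_and_modEq_iff_modEq_mul` for coprime moduli).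
-/

set_option autoImplicit false

namespace H29SM

/-- exponents for the `p`-part and the prime to `p` part of elements of order dividing `n` -/
structure PQ (p n : ℕ) where
  /-- exponent of the `p`-part -/
  u : ℕ
  /-- exponent of the prime to `p` part -/
  v : ℕ
  /-- the power of `p` -/
  r : ℕ
  /-- the prime to `p` part of `n` -/
  m : ℕ
  hm : ¬ p ∣ m
  add : u + v ≡ 1 [MOD n]
  hu : n ∣ u * p ^ r
  hv : n ∣ v * m
  huu : u * u ≡ u [MOD n]
  hvv : v * v ≡ v [MOD n]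
  huv : n ∣ u * v

theorem exists_PQ (p n : ℕ) [Fact p.Prime] (hn : 0 < n) : Nonempty (PQ p n) := by
  have hp : p.Prime := Fact.out
  obtain ⟨r, m, hm, rfl⟩ := Nat.exists_eq_pow_mul_and_not_dvd hn.ne' p hp.ne_one
  have hco : Nat.Coprime (p ^ r) m := Nat.Coprime.pow_left r ((Nat.Prime.coprime_iff_not_dvd hp).2 hm)
  obtain ⟨u, hu1, hu2⟩ := Nat.chineseRemainder hco 1 0
  obtain ⟨v, hv1, hv2⟩ := Nat.chineseRemainder hco 0 1
  have hu2' : m ∣ u := (Nat.modEq_zero_iff_dvd).1 hu2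
  have hv1' : p ^ r ∣ v := (Nat.modEq_zero_iff_dvd).1 hv1
  refine ⟨⟨u, v, r, m, hm, ?_, ?_, ?_, ?_, ?_, ?_⟩⟩
  · exact (Nat.modEq_and_modEq_iff_modEq_mul hco).1 ⟨hu1.add hv1, hu2.add hv2⟩
  · rw [mul_comm u]
    exact Nat.mul_dvd_mul_left _ hu2'
  · exact Nat.mul_dvd_mul_right hv1' _
  · exact (Nat.modEq_and_modEq_iff_modEq_mul hco).1
      ⟨(hu1.mul hu1).trans (by simpa using hu1.symm), (hu2.mul hu2).trans (by simpa using hu2.symm)⟩
  · exact (Nat.modEq_and_modEq_iff_modEq_mul hco).1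
      ⟨(hv1.mul hv1).trans (by simpa using hv1.symm), (hv2.mul hv2).trans (by simpa using hv2.symm)⟩
  · rw [mul_comm u]
    exact Nat.mul_dvd_mul hv1' hu2'

section
variable {p n : ℕ} (q : PQ p n) {H : Type} [Group H]

theorem pow_congr (x : H) (hx : x ^ n = 1) {a b : ℕ} (h : a ≡ b [MOD n]) : x ^ a = x ^ b := by
  have hd : orderOf x ∣ n := orderOf_dvd_of_pow_eq_one hx
  exact pow_eq_pow_iff_modEq.2 (h.of_dvd hd)

theorem pow_dvd (x : H) (hx : x ^ n = 1) {a : ℕ} (h : n ∣ a) : x ^ a = 1 := by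
  obtain ⟨c, rfl⟩ := h
  rw [pow_mul, hx, one_pow]

theorem uv_mul (x : H) (hx : x ^ n = 1) : x ^ q.u * x ^ q.v = x := by
  rw [← pow_add, pow_congr x hx q.add, pow_one]

theorem u_pow (x : H) (hx : x ^ n = 1) : (x ^ q.u) ^ p ^ q.r = 1 := by
  rw [← pow_mul]
  exact pow_dvd x hx q.hu

theorem v_pow (x : H) (hx : x ^ n = 1) : (x ^ q.v) ^ q.m = 1 := by
  rw [← pow_mul]
  exact pow_dvd x hx q.hv

theorem u_u (x : H) (hx : x ^ n = 1) : (x ^ q.u) ^ q.u = x ^ q.u := by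
  rw [← pow_mul]
  exact pow_congr x hx q.huu

theorem v_v (x : H) (hx : x ^ n = 1) : (x ^ q.v) ^ q.v = x ^ q.v := by
  rw [← pow_mul]
  exact pow_congr x hx q.hvv

theorem u_v (x : H) (hx : x ^ n = 1) : (x ^ q.u) ^ q.v = 1 := by
  rw [← pow_mul]
  exact pow_dvd x hx q.huv

theorem v_u (x : H) (hx : x ^ n = 1) : (x ^ q.v) ^ q.u = 1 := by
  rw [← pow_mul, mul_comm]
  exact pow_dvd x hx q.huv

end

end H29SM
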