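import Mathlib
import Pool.Agent.H25.SI.Hal
import Pool.Agent.H29.SM.Pq

/-!
# Definitions for split metabelian groups
-/

set_option autoImplicit false
set_option linter.unusedSectionVars false

namespace H29SM

open H25SI
open scoped IsMulCommutative

section
variable {G : Type} [Group G] [Fintype G] {C : Type} [CommGroup C] [Fintype C] (κ : G →* C)
  (j : C →* G) [IsMulCommutative κ.ker] [Fintype κ.ker]

/-- `c` fixes the prime to `p` part of `ψ` -/
def Fx {p n : ℕ} (q : PQ p n) (c : C) (ψ : κ.ker →* ℂˣ) : Prop :=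
  cj κ.ker (j c) ψ ^ q.v = ψ ^ q.v

/-- `D` fixes the prime to `p` part of `ψ`, and contains all `p`-elements that do so -/
def Cond {p n : ℕ} (q : PQ p n) (D : Subgroup C) (ψ : κ.ker →* ℂˣ) : Prop :=
  (∀ c ∈ D, Fx κ j q c ψ) ∧ ∀ c : C, c ∉ D → c ^ q.v = 1 → ¬ Fx κ j q c ψ

open Classical in
/-- the linear character of the inertia group as function on `G` -/
noncomputable def dval {π : IrrRep G} (d : Dat κ j π) (g : G) : ℂ :=
  if h : g ∈ d.D.comap κ then ((d.η ⟨g, h⟩ : ℂˣ) : ℂ) else 0

/-- the subgroup of the elements of order prime to `p` -/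
def EE {p n : ℕ} (q : PQ p n) (C : Type) [CommGroup C] : Subgroup C := (powMonoidHom q.u).ker

end

end H29SM
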