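import Mathlib
import Pool.Agent.H29.SM.Defs

/-!
# Detecting the stabilizer of the prime to `p` part

PROOF of `exists_nK`.  Let `K := (powMonoidHom q.v : κ.ker →* κ.ker).range`, a subgroup of `κ.ker` (a commutative
group, `open scoped IsMulCommutative`).  Every `k ∈ K` has `k ^ q.m = 1` (`v_pow`), so `p ∤ Nat.card K` (Cauchy:
an element of order `p` would give `p ∣ q.m`; `exists_prime_orderOf_dvd_card`).  Put `N = Nat.card K` and
`nk c = ∑ k : K, single ((k : κ.ker)⁻¹ * MulAut.conjNormal (j c) k) 1`.  As in `H25SI.ev_nc`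
(`Pool/Agent/H25/SI/Asm.lean`): `ev ψ (nk c) = ∑ k : K, (cj κ.ker (j c) ψ * ψ⁻¹) k`, which is `N` if
`cj κ.ker (j c) ψ * ψ⁻¹` is trivial on `K` and `0` otherwise (`H25SI.sum_groupG` for the group `K`); it is
trivial on `K` iff for all `a`, `(cj .. ψ) (a ^ q.v) = ψ (a ^ q.v)` iff `Fx κ j q c ψ`.
PROOF of `exists_uK`.  As `H25SI.uD`, `H25SI.ev_uD`:
`uk D = ∏ c : C, if c ∈ D then nk c else if c ^ q.v = 1 then N - nk c else N` with value
`N ^ card C` or `0`; `p ∤ N ^ card C`.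
-/

set_option autoImplicit false
set_option linter.unusedSectionVars false

namespace H29SM

open H25SI
open scoped IsMulCommutative

section
variable {G : Type} [Group G] [Fintype G] {C : Type} [CommGroup C] [Fintype C] (κ : G →* C)
  (j : C →* G) [IsMulCommutative κ.ker] [Fintype κ.ker]

open Classical in
theorem exists_nK (p : ℕ) [Fact p.Prime] (q : PQ p (Nat.card G)) :
    ∃ (N : ℕ) (nk : C → MonoidAlgebra ℤ κ.ker), ¬ p ∣ N ∧ ∀ (c : C) (ψ : κ.ker →* ℂˣ),
      ev ψ (nk c) = if Fx κ j q c ψ then (N : ℂ) else 0 := by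
  obtain ⟨K, hK⟩ : ∃ K : Subgroup κ.ker, K = (powMonoidHom q.v : κ.ker →* κ.ker).range := ⟨_, rfl⟩
  have hpw : ∀ a : κ.ker, a ^ Nat.card G = 1 := by
    intro a
    apply Subtype.ext
    rw [Subgroup.coe_pow, pow_card_eq_one']
    rfl
  have hmem : ∀ a : κ.ker, a ^ q.v ∈ K := by
    intro a
    rw [hK]
    exact ⟨a, rfl⟩
  have hmem' : ∀ k : κ.ker, k ∈ K → ∃ a : κ.ker, a ^ q.v = k := by
    intro k hk
    rw [hK] at hk
    obtain ⟨a, ha⟩ := hk
    exact ⟨a, ha⟩
  refine ⟨Fintype.card K, fun c => ∑ k : K,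
    MonoidAlgebra.single ((k : κ.ker)⁻¹ * MulAut.conjNormal (j c) (k : κ.ker)) 1, ?_, ?_⟩
  · intro hd
    obtain ⟨k, hk⟩ := exists_prime_orderOf_dvd_card p hd
    obtain ⟨a, ha⟩ := hmem' k.1 k.2
    have h1 : k ^ q.m = 1 := by
      apply Subtype.ext
      rw [Subgroup.coe_pow, ← ha]
      exact v_pow q a (hpw a)
    have h2 := orderOf_dvd_of_pow_eq_one h1
    rw [hk] at h2
    exact q.hm h2
  · intro c ψ
    rw [map_sum]
    have h1 : ∀ k : K, ev ψ (MonoidAlgebra.single ((k : κ.ker)⁻¹ * MulAut.conjNormal (j c) (k : κ.ker)) 1)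
        = ((((cj κ.ker (j c) ψ * ψ⁻¹).comp K.subtype) k : ℂˣ) : ℂ) := by
      intro k
      rw [ev_single, Int.cast_one, one_mul, map_mul, map_inv, mul_comm]
      rfl
    rw [Finset.sum_congr rfl fun k _ => h1 k, sum_groupG]
    have h2 : (cj κ.ker (j c) ψ * ψ⁻¹).comp K.subtype = 1 ↔ Fx κ j q c ψ := by
      rw [Fx]
      constructor
      · intro h
        apply MonoidHom.ext
        intro a
        have h3 := DFunLike.congr_fun h (⟨a ^ q.v, hmem a⟩ : K)
        have h4 : cj κ.ker (j c) ψ (a ^ q.v) * (ψ (a ^ q.v))⁻¹ = 1 := h3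
        rw [mul_inv_eq_one] at h4
        rw [MonoidHom.pow_apply, MonoidHom.pow_apply, ← map_pow, ← map_pow, h4]
      · intro h
        apply MonoidHom.ext
        intro k
        obtain ⟨a, ha⟩ := hmem' k.1 k.2
        have h3 := DFunLike.congr_fun h a
        rw [MonoidHom.pow_apply, MonoidHom.pow_apply, ← map_pow, ← map_pow, ha] at h3
        change cj κ.ker (j c) ψ k.1 * (ψ k.1)⁻¹ = 1
        rw [h3, mul_inv_cancel]
    by_cases h : Fx κ j q c ψ
    · rw [if_pos h, if_pos (h2.mpr h)]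
    · rw [if_neg h, if_neg (fun hh => h (h2.mp hh))]

open Classical in
theorem exists_uK (p : ℕ) [Fact p.Prime] (q : PQ p (Nat.card G)) :
    ∃ (N : ℕ) (uk : Subgroup C → MonoidAlgebra ℤ κ.ker), ¬ p ∣ N ∧
      ∀ (D : Subgroup C) (ψ : κ.ker →* ℂˣ),
        ev ψ (uk D) = if Cond κ j q D ψ then (N : ℂ) else 0 := by
  obtain ⟨N, nk, hN, hnk⟩ := exists_nK κ j p q
  refine ⟨N ^ Fintype.card C, fun D => ∏ c : C, if c ∈ D then nk c else
    if c ^ q.v = 1 then ((N : ℤ) : MonoidAlgebra ℤ κ.ker) - nk c else ((N : ℤ) : MonoidAlgebra ℤ κ.ker), ?_, ?_⟩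
  · intro hd
    exact hN ((Fact.out : p.Prime).dvd_of_dvd_pow hd)
  · intro D ψ
    rw [map_prod]
    have h1 : ∀ c : C, ev ψ (if c ∈ D then nk c else
        if c ^ q.v = 1 then ((N : ℤ) : MonoidAlgebra ℤ κ.ker) - nk c else ((N : ℤ) : MonoidAlgebra ℤ κ.ker))
        = if ((c ∈ D → Fx κ j q c ψ) ∧ (c ∉ D → c ^ q.v = 1 → ¬ Fx κ j q c ψ)) then (N : ℂ) else 0 := by
      intro c
      by_cases hc : c ∈ D
      · rw [if_pos hc, hnk]
        by_cases h : Fx κ j q c ψ
        · rw [if_pos h, if_pos ⟨fun _ => h, fun hh => absurd hc hh⟩]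
        · rw [if_neg h, if_neg fun hh => h (hh.1 hc)]
      · rw [if_neg hc]
        by_cases hv : c ^ q.v = 1
        · rw [if_pos hv, map_sub, hnk, map_intCast]
          by_cases h : Fx κ j q c ψ
          · rw [if_pos h, if_neg fun hh => hh.2 hc hv h]
            simp
          · rw [if_neg h, if_pos ⟨fun hh => absurd hh hc, fun _ _ => h⟩]
            simp
        · rw [if_neg hv, map_intCast, if_pos ⟨fun hh => absurd hh hc, fun _ hh => absurd hh hv⟩]
          simp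
    rw [Finset.prod_congr rfl fun c _ => h1 c]
    by_cases h : Cond κ j q D ψ
    · rw [if_pos h, Finset.prod_congr rfl fun c _ => if_pos ⟨fun hc => h.1 c hc, fun hc hv => h.2 c hc hv⟩,
        Finset.prod_const, Finset.card_univ]
      push_cast
      rfl
    · rw [if_neg h]
      have h2 : ∃ c : C, ¬ ((c ∈ D → Fx κ j q c ψ) ∧ (c ∉ D → c ^ q.v = 1 → ¬ Fx κ j q c ψ)) := by
        by_contra hcon
        push Not at hcon
        exact h ⟨fun c hc => (hcon c).1 hc, fun c hc hv => (hcon c).2 hc hv⟩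
      obtain ⟨c, hc⟩ := h2
      exact Finset.prod_eq_zero (Finset.mem_univ c) (if_neg hc)

end

end H29SM
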