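import Mathlib
import Pool.Agent.H29.SM.Defs

/-!
# A retraction of `A` adapted to a subgroup `D` of `C`

Hypothesis `hcomm`: the `p`-part of `C` centralizes the `p`-part of `A`.

PROOF of `exists_r`.  Put `D' = D ⊓ EE q C` (elements of `D` of order prime to `p`), `N(a) = ∏ d : D', conj (j d) a`
(conj = `MulAut.conjNormal`, values in the commutative group `κ.ker`), which is a homomorphism of `a`.
`Nat.card D'` is prime to `p` (every element `d` of `EE q C` has `d = d ^ v`, `d ^ m = 1`; Cauchy), so there is `w`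
with `w * Nat.card D' ≡ 1 [MOD p ^ q.r]`.  Put `r a = a ^ q.v * (N (a ^ q.u)) ^ w`.
(1) `r` is a homomorphism commuting with `conj (j c)`: `j (C)` is commutative, so `conj (j c)` commutes with
    `conj (j d)`.
(2) Let `ψ` with `Fx κ j q c ψ` for all `c ∈ D`.  For `c ∈ D`: `ψ (conj c (a ^ v)) = ψ (a ^ v)` (that is `Fx`);
    `N (conj c (a ^ u))`: write `c = c ^ u * c ^ v`.  `conj (c ^ u)` fixes `(conj (c ^ v) a) ^ u` by `hcomm`, and
    `c ^ v ∈ D'`, so it only permutes the factors of `N`: `N (conj c (a ^ u)) = N (a ^ u)`.  So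
    `(ψ ∘ r) (conj c a) = (ψ ∘ r) a`.
(3) If `ψ` is fixed by all `c ∈ D`: `ψ (N (a ^ u)) = ψ (a ^ u) ^ card D'`, so
    `ψ (r a) = ψ (a ^ v) * ψ (a ^ u) ^ (card D' * w) = ψ (a ^ v) * ψ (a ^ u) = ψ a`, as `(a ^ u) ^ (p ^ r) = 1`.
All elements `x` of `G`, `κ.ker`, `C` satisfy `x ^ Nat.card G = 1` (for `C` because `κ` is surjective, `hκ`).
-/

set_option autoImplicit false
set_option linter.unusedSectionVars false

namespace H29SM

open H25SI
open scoped IsMulCommutative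

/-- the product over the conjugates by the elements of a subgroup -/
private def Rd_N {A C : Type} [CommGroup A] [CommGroup C] (φ : C →* MulAut A) (D' : Subgroup C)
    [Fintype D'] : A →* A where
  toFun a := ∏ d : D', φ (d : C) a
  map_one' := by simp
  map_mul' a b := by simp [Finset.prod_mul_distrib]

private theorem Rd_N_apply {A C : Type} [CommGroup A] [CommGroup C] (φ : C →* MulAut A)
    (D' : Subgroup C) [Fintype D'] (a : A) : Rd_N φ D' a = ∏ d : D', φ (d : C) a := rfl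

private theorem Rd_comm {A C : Type} [CommGroup A] [CommGroup C] (φ : C →* MulAut A) (c d : C)
    (a : A) : φ c (φ d a) = φ d (φ c a) := by
  rw [← MulAut.mul_apply, ← MulAut.mul_apply, ← map_mul, ← map_mul, mul_comm]

private theorem Rd_N_phi {A C : Type} [CommGroup A] [CommGroup C] (φ : C →* MulAut A)
    (D' : Subgroup C) [Fintype D'] (c : C) (a : A) : Rd_N φ D' (φ c a) = φ c (Rd_N φ D' a) := by
  rw [Rd_N_apply, Rd_N_apply, map_prod]
  exact Finset.prod_congr rfl fun d _ => Rd_comm φ _ _ _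

private theorem Rd_N_mem {A C : Type} [CommGroup A] [CommGroup C] (φ : C →* MulAut A)
    (D' : Subgroup C) [Fintype D'] (e : C) (he : e ∈ D') (a : A) :
    Rd_N φ D' (φ e a) = Rd_N φ D' a := by
  rw [Rd_N_apply, Rd_N_apply]
  refine Fintype.prod_equiv (Equiv.mulRight (⟨e, he⟩ : D')) _ _ fun d => ?_
  rw [Equiv.coe_mulRight, Subgroup.coe_mul, map_mul, MulAut.mul_apply]

private theorem Rd_abs {A C : Type} [CommGroup A] [CommGroup C] [Finite C] {n : ℕ}
    (hA : ∀ a : A, a ^ n = 1) (hC : ∀ c : C, c ^ n = 1) (p : ℕ) [Fact p.Prime] (q : PQ p n)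
    (φ : C →* MulAut A) (hcomm : ∀ (c : C) (a : A), φ (c ^ q.u) (a ^ q.u) = a ^ q.u)
    (D : Subgroup C) : ∃ r : A →* A,
      (∀ (c : C) (a : A), r (φ c a) = φ c (r a)) ∧
      (∀ ψ : A →* ℂˣ, (∀ c ∈ D, ∀ a, ψ (φ c a) ^ q.v = ψ a ^ q.v) →
        ∀ c ∈ D, ∀ a, ψ (r (φ c a)) = ψ (r a)) ∧
      (∀ ψ : A →* ℂˣ, (∀ c ∈ D, ∀ a, ψ (φ c a) = ψ a) → ∀ a, ψ (r a) = ψ a) := by
  classical
  let D' : Subgroup C := D ⊓ (powMonoidHom q.u : C →* C).ker
  have hD' : ∀ c : C, c ∈ D' ↔ c ∈ D ∧ c ^ q.u = 1 := by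
    intro c
    rw [Subgroup.mem_inf, MonoidHom.mem_ker, powMonoidHom_apply]
  haveI : Fintype D' := Fintype.ofFinite D'
  have hp : p.Prime := Fact.out
  have hcop : Nat.Coprime (Nat.card D') (p ^ q.r) := by
    refine Nat.Coprime.pow_right _ ?_
    rw [Nat.coprime_comm, hp.coprime_iff_not_dvd]
    intro hdvd
    obtain ⟨d, hd⟩ := exists_prime_orderOf_dvd_card' p hdvd
    have h1 : (d : C) ^ q.u = 1 := ((hD' _).1 d.2).2
    have h2 : (d : C) ^ q.v = d := by
      have h3 := uv_mul q (d : C) (hC _)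
      rwa [h1, one_mul] at h3
    have h3 : (d : C) ^ q.m = 1 := by
      have h4 := v_pow q (d : C) (hC _)
      rwa [h2] at h4
    have h4 : d ^ q.m = 1 := by
      apply Subtype.ext
      rw [Subgroup.coe_pow, h3, Subgroup.coe_one]
    have h5 := orderOf_dvd_of_pow_eq_one h4
    rw [hd] at h5
    exact q.hm h5
  obtain ⟨w, hw⟩ : ∃ w, Nat.card D' * w ≡ 1 [MOD p ^ q.r] := by
    refine ⟨Nat.card D' ^ (Nat.totient (p ^ q.r) - 1), ?_⟩
    have h1 : 0 < Nat.totient (p ^ q.r) := Nat.totient_pos.2 (pow_pos hp.pos _)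
    have h2 : Nat.card D' * Nat.card D' ^ (Nat.totient (p ^ q.r) - 1) =
        Nat.card D' ^ Nat.totient (p ^ q.r) := by
      rw [← pow_succ', Nat.sub_add_cancel h1]
    rw [h2]
    exact Nat.ModEq.pow_totient hcop
  let r : A →* A := powMonoidHom q.v * (powMonoidHom w).comp ((Rd_N φ D').comp (powMonoidHom q.u))
  have hr : ∀ a, r a = a ^ q.v * (Rd_N φ D' (a ^ q.u)) ^ w := fun a => rfl
  refine ⟨r, ?_, ?_, ?_⟩
  · intro c a
    rw [hr, hr, map_mul (φ c), map_pow (φ c) a q.v, map_pow (φ c) _ w, ← Rd_N_phi,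
      map_pow (φ c) a q.u]
  · intro ψ hψ c hc a
    have h1 : Rd_N φ D' ((φ c a) ^ q.u) = Rd_N φ D' (a ^ q.u) := by
      have h2 : c = c ^ q.u * c ^ q.v := (uv_mul q c (hC c)).symm
      have h3 : (φ c a) ^ q.u = φ (c ^ q.v) (a ^ q.u) := by
        have h4 : φ c a = φ (c ^ q.u) (φ (c ^ q.v) a) := by
          conv_lhs => rw [h2]
          rw [map_mul, MulAut.mul_apply]
        rw [h4, ← map_pow (φ (c ^ q.u)), hcomm]
        exact (map_pow (φ (c ^ q.v)) a q.u).symm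
      rw [h3]
      refine Rd_N_mem φ D' (c ^ q.v) ((hD' _).2 ⟨D.pow_mem hc _, v_u q c (hC c)⟩) _
    rw [hr, hr, map_mul ψ, map_mul ψ, map_pow ψ (φ c a) q.v, hψ c hc a, h1, map_pow ψ a q.v]
  · intro ψ hψ a
    have h1 : ψ (Rd_N φ D' (a ^ q.u)) = ψ (a ^ q.u) ^ Nat.card D' := by
      rw [Rd_N_apply, map_prod]
      have h2 : ∀ d ∈ (Finset.univ : Finset D'), ψ (φ (d : C) (a ^ q.u)) = ψ (a ^ q.u) :=
        fun d _ => hψ _ ((hD' _).1 d.2).1 _
      rw [Finset.prod_congr rfl h2, Finset.prod_const, Finset.card_univ, Nat.card_eq_fintype_card]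
    have h2 : (ψ (a ^ q.u)) ^ (p ^ q.r) = 1 := by
      rw [← map_pow, u_pow q a (hA a), map_one]
    have h3 : (ψ (a ^ q.u)) ^ (Nat.card D' * w) = ψ (a ^ q.u) := by
      have h4 := pow_congr (ψ (a ^ q.u)) h2 hw
      rwa [pow_one] at h4
    rw [hr, map_mul, map_pow ψ (Rd_N φ D' (a ^ q.u)), h1, ← pow_mul, h3, ← map_mul, mul_comm,
      uv_mul q a (hA a)]

section
variable {G : Type} [Group G] [Fintype G] {C : Type} [CommGroup C] [Fintype C] (κ : G →* C)
  (j : C →* G) [IsMulCommutative κ.ker] [Fintype κ.ker]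

theorem pow_cardC (hκ : ∀ c, κ (j c) = c) (c : C) : c ^ Nat.card G = 1 := by
  have h1 : j c ^ Nat.card G = 1 := pow_card_eq_one'
  have h2 := congrArg κ h1
  rwa [map_pow, hκ, map_one] at h2

theorem pow_cardA (a : κ.ker) : a ^ Nat.card G = 1 := by
  apply Subtype.ext
  have h1 : (a : G) ^ Nat.card G = 1 := pow_card_eq_one'
  rw [Subgroup.coe_pow, h1, Subgroup.coe_one]

theorem exists_r (hκ : ∀ c, κ (j c) = c) (p : ℕ) [Fact p.Prime] (q : PQ p (Nat.card G))
    (hcomm : ∀ (c : C) (a : κ.ker), MulAut.conjNormal (j (c ^ q.u)) (a ^ q.u) = a ^ q.u)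
    (D : Subgroup C) : ∃ r : κ.ker →* κ.ker,
      (∀ (c : C) (a : κ.ker), r (MulAut.conjNormal (j c) a) = MulAut.conjNormal (j c) (r a)) ∧
      (∀ ψ : κ.ker →* ℂˣ, (∀ c ∈ D, Fx κ j q c ψ) →
        ∀ c ∈ D, cj κ.ker (j c) (ψ.comp r) = ψ.comp r) ∧
      (∀ ψ : κ.ker →* ℂˣ, (∀ c ∈ D, cj κ.ker (j c) ψ = ψ) → ψ.comp r = ψ) := by
  obtain ⟨r, h1, h2, h3⟩ := Rd_abs (A := κ.ker) (C := C) (pow_cardA κ) (pow_cardC κ j hκ) p q
    ((MulAut.conjNormal : G →* MulAut κ.ker).comp j) hcomm D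
  refine ⟨r, h1, ?_, ?_⟩
  · intro ψ hψ c hc
    refine MonoidHom.ext fun a => ?_
    refine h2 ψ (fun c hc a => ?_) c hc a
    exact DFunLike.congr_fun (hψ c hc) a
  · intro ψ hψ
    refine MonoidHom.ext fun a => ?_
    refine h3 ψ (fun c hc a => ?_) a
    exact DFunLike.congr_fun (hψ c hc) a

end

end H29SM
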