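import Mathlib
import Pool.Agent.H29.SM.NcK
import Pool.Agent.H29.SM.Rd

/-!
# The central elements

PROOF of `exists_central`.  Take `N, uk` from `exists_uK` (outside, as arguments `N uk huk`), `r` from `exists_r`
for `D`, and `y := uk D * MonoidAlgebra.mapDomain r (be κ j D b c)` (or
`∑ a, single (r a) ((be κ j D b c).coeff a)`) in `MonoidAlgebra ℤ κ.ker`.  For `ψ : κ.ker →* ℂˣ`:
`ev ψ y = if Cond κ j q D ψ then N * ev (ψ.comp r) (be κ j D b c) else 0`.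
(a) `ev (cj κ.ker (j c') ψ) y = ev ψ y` for all `c'`: `Cond` for `cj (j c') ψ` and for `ψ` are equivalent (`C` is
commutative: `cj (j c) (cj (j c') ψ) = cj (j c') (cj (j c) ψ)`, `cj_cjG`, and `cj (j c')` is injective and
compatible with powers); if `Cond` holds, `ψ.comp r` is fixed by `D` (property 2 of `r`),
`(cj (j c') ψ).comp r = cj (j c') (ψ.comp r)` (property 1), and `be_conj` applies.
(b) With `e := c ^ q.u` (as element of `C`): `y * single (conjNormal (j e) a) 1 = y * single a 1`, by `ev_separates`: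
if `Cond κ j q D ψ` then `ψ (conjNormal (j e) a) = ψ a`, since (`uv_mul`) `a = a ^ u * a ^ v`,
`conjNormal (j e) (a ^ u) = a ^ u` (`hcomm`, `e = c ^ u`) and `ψ (conjNormal (j e) (a ^ v)) = ψ (a ^ v)` (`Fx` for
`e ∈ D`).
So `z := emb κ.ker y * single (j e) 1` is central (`central_piece`, `emb_center`, `inv_of_evC`, see
`H25SI.partA` in `Pool/Agent/H25/SI/Two.lean`), and `piece_value` gives its value at `π` with `d : Dat κ j π`:
`ev (resA κ d.D d.η) y * cv (resD κ j hκ d.D d.η) ⟨e, _⟩` if `e ∈ d.D`, and `0` if `e ∉ d.D` (its hypothesis `hs'`: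
if `e ∉ d.D` then `ev (resA ..) y = 0`, because `Cond κ j q D ψ`, `e ∈ D`, gives `Fx κ j q e ψ`, and with `hcomm`
`cj (j e) ψ = ψ`, i.e. `e ∈ d.D` by `d.hD`).
If `Cond` fails for `ψ = resA κ d.D d.η` the value is `0`.  If `d.D = D`: `Cond` holds (`d.hD`; for `c' ∉ D`,
`c' ^ v = 1`, i.e. `c' = c' ^ u`: `Fx` and `hcomm` would give `cj (j c') ψ = ψ`, `c' ∈ D`), `ψ.comp r = ψ`, value
`N * ev ψ (be κ j D b c) * dval κ j d (j (c ^ q.u))`.
-/

set_option autoImplicit false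
set_option linter.unusedSectionVars false

namespace H29SM

open H25SI
open scoped IsMulCommutative

section
variable {G : Type} [Group G] [Fintype G] {C : Type} [CommGroup C] [Fintype C] (κ : G →* C)
  (j : C →* G) [IsMulCommutative κ.ker] [Fintype κ.ker]

/-- if `c` fixes the prime to `p` part and is a `p`-element, then it fixes `ψ` -/
theorem fix_of_Fx (hκ : ∀ c, κ (j c) = c) (p : ℕ) [Fact p.Prime] (q : PQ p (Nat.card G))
    (hcomm : ∀ (c : C) (a : κ.ker), MulAut.conjNormal (j (c ^ q.u)) (a ^ q.u) = a ^ q.u)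
    (ψ : κ.ker →* ℂˣ) (c : C) (hc : Fx κ j q (c ^ q.u) ψ) : cj κ.ker (j (c ^ q.u)) ψ = ψ := by
  apply MonoidHom.ext
  intro a
  have h0 : ∀ b : κ.ker, cj κ.ker (j (c ^ q.u)) ψ b = ψ (MulAut.conjNormal (j (c ^ q.u)) b) :=
    fun b => rfl
  have hc' : (cj κ.ker (j (c ^ q.u)) ψ) a ^ q.v = ψ a ^ q.v := by
    have h1 := DFunLike.congr_fun hc a
    rwa [MonoidHom.pow_apply, MonoidHom.pow_apply] at h1
  have h2 : a ^ q.u * a ^ q.v = a := uv_mul q a (pow_cardA κ a)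
  have h3 : cj κ.ker (j (c ^ q.u)) ψ a
      = cj κ.ker (j (c ^ q.u)) ψ (a ^ q.u) * cj κ.ker (j (c ^ q.u)) ψ (a ^ q.v) := by
    rw [← map_mul, h2]
  rw [h3, map_pow _ a q.v, hc', h0, hcomm, ← map_pow ψ a q.v, ← map_mul, h2]

theorem Fx_of_cj (p : ℕ) (q : PQ p (Nat.card G)) (ψ : κ.ker →* ℂˣ) (c : C)
    (h : cj κ.ker (j c) ψ = ψ) : Fx κ j q c ψ := by
  rw [Fx, h]

theorem cj_pow (g : G) (ψ : κ.ker →* ℂˣ) (n : ℕ) : cj κ.ker g (ψ ^ n) = cj κ.ker g ψ ^ n := by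
  apply MonoidHom.ext
  intro a
  rw [MonoidHom.pow_apply]
  rfl

theorem Fx_cj (p : ℕ) (q : PQ p (Nat.card G)) (ψ : κ.ker →* ℂˣ) (c c' : C)
    (h : Fx κ j q c ψ) : Fx κ j q c (cj κ.ker (j c') ψ) := by
  unfold Fx at h ⊢
  rw [cj_cjG, ← map_mul, mul_comm, map_mul, ← cj_cjG, ← cj_pow, h, cj_pow]

theorem Fx_cj_iff (p : ℕ) (q : PQ p (Nat.card G)) (ψ : κ.ker →* ℂˣ) (c c' : C) :
    Fx κ j q c (cj κ.ker (j c') ψ) ↔ Fx κ j q c ψ := by
  constructor
  · intro h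
    have h1 := Fx_cj κ j p q _ c c'⁻¹ h
    rwa [cj_inv_cj] at h1
  · exact Fx_cj κ j p q ψ c c'

theorem Cond_cj_iff (p : ℕ) (q : PQ p (Nat.card G)) (D : Subgroup C) (ψ : κ.ker →* ℂˣ) (c' : C) :
    Cond κ j q D (cj κ.ker (j c') ψ) ↔ Cond κ j q D ψ := by
  unfold Cond
  simp only [Fx_cj_iff]

theorem Cond_of_dat (hκ : ∀ c, κ (j c) = c) (p : ℕ) [Fact p.Prime] (q : PQ p (Nat.card G))
    (hcomm : ∀ (c : C) (a : κ.ker), MulAut.conjNormal (j (c ^ q.u)) (a ^ q.u) = a ^ q.u)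
    {π : IrrRep G} (d : Dat κ j π) : Cond κ j q d.D (resA κ d.D d.η) := by
  refine ⟨fun c hc => Fx_of_cj κ j p q _ c ((d.hD c).2 hc), fun c hc h1 h2 => hc ?_⟩
  have h3 : c ^ q.u = c := by
    have h4 := uv_mul q c (pow_cardC κ j hκ c)
    rwa [h1, mul_one] at h4
  rw [← h3] at h2
  have h5 := fix_of_Fx κ j hκ p q hcomm _ c h2
  rw [h3] at h5
  exact (d.hD c).1 h5

/-- `Cond` and the stabilizer: the `p`-parts of `D` and of the stabilizer agree -/
theorem sup_of_Cond (hκ : ∀ c, κ (j c) = c) (p : ℕ) [Fact p.Prime] (q : PQ p (Nat.card G))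
    (hcomm : ∀ (c : C) (a : κ.ker), MulAut.conjNormal (j (c ^ q.u)) (a ^ q.u) = a ^ q.u)
    {π : IrrRep G} (d : Dat κ j π) (D : Subgroup C) (h : Cond κ j q D (resA κ d.D d.η)) :
    d.D ⊔ EE q C = D ⊔ EE q C := by
  have hE : ∀ c : C, c ^ q.v ∈ EE q C := by
    intro c
    rw [EE, MonoidHom.mem_ker]
    exact v_u q c (pow_cardC κ j hκ c)
  have hu : ∀ c : C, (c ^ q.u ∈ d.D ↔ c ^ q.u ∈ D) := by
    intro c
    constructor
    · intro hc
      by_contra hn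
      exact h.2 _ hn (u_v q c (pow_cardC κ j hκ c)) (Fx_of_cj κ j p q _ _ ((d.hD _).2 hc))
    · intro hc
      exact (d.hD _).1 (fix_of_Fx κ j hκ p q hcomm _ c (h.1 _ hc))
  have hle : ∀ D1 D2 : Subgroup C, (∀ c : C, c ^ q.u ∈ D1 → c ^ q.u ∈ D2) →
      D1 ⊔ EE q C ≤ D2 ⊔ EE q C := by
    intro D1 D2 h12
    refine sup_le (fun c hc => ?_) le_sup_right
    rw [← uv_mul q c (pow_cardC κ j hκ c)]
    exact Subgroup.mul_mem _ (Subgroup.mem_sup_left (h12 c (D1.pow_mem hc _)))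
      (Subgroup.mem_sup_right (hE c))
  exact le_antisymm (hle _ _ fun c => (hu c).1) (hle _ _ fun c => (hu c).2)

open Classical in
theorem exists_central (hκ : ∀ c, κ (j c) = c) (p : ℕ) [Fact p.Prime] (q : PQ p (Nat.card G))
    (hcomm : ∀ (c : C) (a : κ.ker), MulAut.conjNormal (j (c ^ q.u)) (a ^ q.u) = a ^ q.u)
    (Λ : (G → ℂ) → ℂ) (D : Subgroup C) (b : MonoidAlgebra ℤ (D.comap κ))
    (hb : ∀ η : D.comap κ →* ℂˣ, Λ (indChar (D.comap κ) η) = ev η b)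
    (N : ℕ) (uk : Subgroup C → MonoidAlgebra ℤ κ.ker)
    (huk : ∀ (D : Subgroup C) (ψ : κ.ker →* ℂˣ),
        ev ψ (uk D) = if Cond κ j q D ψ then (N : ℂ) else 0) (c : D) :
    ∃ z ∈ Subring.center (MonoidAlgebra ℤ G), ∀ (π : IrrRep G) (d : Dat κ j π),
      (¬ Cond κ j q D (resA κ d.D d.η) → centralValue z π = 0) ∧
      (d.D = D → centralValue z π
        = N * ev (resA κ d.D d.η) (be κ j D b c) * dval κ j d (j ((c : C) ^ q.u))) := by
  obtain ⟨r, hr1, hr2, hr3⟩ := exists_r κ j hκ p q hcomm D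
  set x := be κ j D b c with hx
  obtain ⟨y, hy⟩ : ∃ y : MonoidAlgebra ℤ κ.ker, ∀ ψ : κ.ker →* ℂˣ, ev ψ y
      = if Cond κ j q D ψ then (N : ℂ) * ev (ψ.comp r) x else 0 := by
    refine ⟨uk D * ∑ a, MonoidAlgebra.single (r a) (x.coeff a), fun ψ => ?_⟩
    rw [map_mul, huk, ite_mul, zero_mul]
    congr 2
    rw [map_sum, ev_sum]
    refine Finset.sum_congr rfl fun a _ => ?_
    rw [ev_single]
    rfl
  have hcomp : ∀ (c' : C) (ψ : κ.ker →* ℂˣ),
      (cj κ.ker (j c') ψ).comp r = cj κ.ker (j c') (ψ.comp r) := by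
    intro c' ψ
    apply MonoidHom.ext
    intro a
    have e1 : ((cj κ.ker (j c') ψ).comp r) a = ψ (MulAut.conjNormal (j c') (r a)) := rfl
    have e2 : (cj κ.ker (j c') (ψ.comp r)) a = ψ (r (MulAut.conjNormal (j c') a)) := rfl
    rw [e1, e2, hr1]
  have hinv : ∀ (c' : C) (ψ : κ.ker →* ℂˣ), ev (cj κ.ker (j c') ψ) y = ev ψ y := by
    intro c' ψ
    rw [hy, hy]
    by_cases h : Cond κ j q D ψ
    · rw [if_pos h, if_pos ((Cond_cj_iff κ j p q D ψ c').2 h), hcomp, hx,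
        be_conj κ j hκ D b Λ hb (ψ.comp r) (hr2 ψ h.1) c' c]
    · rw [if_neg h, if_neg fun hh => h ((Cond_cj_iff κ j p q D ψ c').1 hh)]
  have heD : (c : C) ^ q.u ∈ D := D.pow_mem c.2 _
  have hfix : ∀ ψ : κ.ker →* ℂˣ, Cond κ j q D ψ → cj κ.ker (j ((c : C) ^ q.u)) ψ = ψ :=
    fun ψ h => fix_of_Fx κ j hκ p q hcomm ψ c (h.1 _ heD)
  have hcen : emb κ.ker y * MonoidAlgebra.single (j ((c : C) ^ q.u)) 1
      ∈ Subring.center (MonoidAlgebra ℤ G) := by
    apply central_piece κ j hκ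
    · exact emb_center κ.ker _ (inv_of_evC κ j hκ _ hinv)
    · intro a
      rw [← sub_eq_zero]
      apply ev_separates
      intro ψ
      have hm : ∀ (t : MonoidAlgebra ℤ κ.ker) (a : κ.ker),
          ev ψ (t * MonoidAlgebra.single a 1) = ev ψ t * ((ψ a : ℂˣ) : ℂ) := by
        intro t a
        rw [map_mul, ev_single, Int.cast_one, one_mul]
      rw [map_sub, hm, hm, sub_eq_zero, hy]
      by_cases h : Cond κ j q D ψ
      · congr 2
        have h1 := DFunLike.congr_fun (hfix ψ h) a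
        exact h1
      · rw [if_neg h, zero_mul, zero_mul]
  refine ⟨_, hcen, fun π d => ⟨fun h => ?_, fun hdD => ?_⟩⟩
  · have h0 : ev (resA κ d.D d.η) y = 0 := by rw [hy, if_neg h]
    exact piece_value κ j hκ d y _ hcen hinv 0 (fun hc => by rw [h0, zero_mul])
      (fun hc => ⟨h0, rfl⟩)
  · have hC : Cond κ j q D (resA κ d.D d.η) :=
      (congrArg (fun D' => Cond κ j q D' (resA κ d.D d.η)) hdD).mp
        (Cond_of_dat κ j hκ p q hcomm d)
    have hdm : (c : C) ^ q.u ∈ d.D := by rw [hdD]; exact heD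
    have hψr : (resA κ d.D d.η).comp r = resA κ d.D d.η := by
      apply hr3
      intro c' hc'
      apply (d.hD c').2
      rw [hdD]
      exact hc'
    have hjm : j ((c : C) ^ q.u) ∈ d.D.comap κ := by
      rw [Subgroup.mem_comap, hκ]
      exact hdm
    refine piece_value κ j hκ d y _ hcen hinv _ (fun hc => ?_) (fun hc => absurd hdm hc)
    rw [hy, if_pos hC, hψr, dval, dif_pos hjm]
    rfl

end

end H29SM
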