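import Mathlib
import Pool.Agent.H25.SI.KD

/-!
# The norm of an element of `ℤ[E]`, `E` a subgroup of `C`

PROOF of `fac`.  By `H25SI.ek_nmv` (for `k = ℂ`): `ek μ (nmv y D) = ∏ lam ∈ exts D μ, ek lam y`, for `C` and
for `E` (with `D.subgroupOf E`).  For `lam : C →* ℂˣ` one has `ek lam (emS E x) = ek (lam.comp E.subtype) x`
(`ek_sum` or `ek_single`).  So the left side is the product over `lam ∈ exts D μ` of
`ek (lam.comp E.subtype) x`, and `lam ↦ lam.comp E.subtype` maps `exts D μ` to
`exts (D.subgroupOf E) (resE E D μ)`.  Group by the image (`Finset.prod_fiberwise_of_maps_to`): it is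
enough that every fibre has `(D ⊔ E).index` elements.  The fibre of `ν` is
`{lam | lam.comp D.subtype = μ, lam.comp E.subtype = ν}`.  It is non empty: (extension) pick
`lam₁` extending `μ` (`exists_exts`); `ν / (lam₁ ∘ E.subtype)` is trivial on `D ⊓ E`, so it extends from `E` to
`D ⊔ E` by `1` on `D`; simplest: the subgroup `(D ⊓ E)` quotient ... : the character
`ν / (lam₁ ∘ E.subtype)` of `E` is trivial on `D.subgroupOf E`, i.e. it comes from `E ⧸ D.subgroupOf E`, which embeds
into `C ⧸ D` (`Subgroup.quotientSubgroupOfEmbeddingOfLE`, or `QuotientGroup.map` is injective with kernel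
...), and characters of subgroups of the finite abelian group `C ⧸ D` extend
(`MonoidHom.domRestrict_surjective`, as in `exists_exts`).  Two elements of the fibre differ by a character
trivial on `D ⊔ E`, i.e. by a character of `C ⧸ (D ⊔ E)`, and there are
`Nat.card (C ⧸ (D ⊔ E)) = (D ⊔ E).index` of them (`card_dualK` / `H25SI.card_dual`, see the proof of `ek_nmv` for
the bijection).
-/

set_option autoImplicit false
set_option linter.unusedSectionVars false

namespace H29SM

open H25SI

section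
variable {C : Type} [CommGroup C] [Fintype C] (E D : Subgroup C) [Fintype E]

/-- inclusion of `ℤ[E]` in `ℤ[C]` -/
noncomputable def emS (x : MonoidAlgebra ℤ E) : MonoidAlgebra ℤ C :=
  ∑ e : E, MonoidAlgebra.single (e : C) (x.coeff e)

/-- restriction of a character of `D` to `D ⊓ E`, as subgroup of `E` -/
noncomputable def resE (μ : D →* ℂˣ) : (D.subgroupOf E) →* ℂˣ :=
  μ.comp
    { toFun := fun x => ⟨((x : E) : C), Subgroup.mem_subgroupOf.1 x.2⟩
      map_one' := rfl
      map_mul' := fun _ _ => rfl }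

theorem ek_emS (lam : C →* ℂˣ) (x : MonoidAlgebra ℤ E) :
    ek lam (emS E x) = ek (lam.comp E.subtype) x := by
  rw [emS, map_sum, ek_sum]
  refine Finset.sum_congr rfl fun e _ => ?_
  rw [ek_single]
  rfl

/-- a pair of compatible characters of `D` and `E` comes from a character of `C` -/
theorem exists_pair (μ : D →* ℂˣ) (ν : E →* ℂˣ)
    (h : ν.comp (D.subgroupOf E).subtype = resE E D μ) :
    ∃ lam : C →* ℂˣ, lam.comp D.subtype = μ ∧ lam.comp E.subtype = ν := by
  classical
  have i1 : HasEnoughRootsOfUnity ℂ (Monoid.exponent C) :=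
    hasEnough (Nat.cast_ne_zero.2 Nat.card_pos.ne')
  let T : D × E →* C := D.subtype.coprod E.subtype
  let g : D × E →* ℂˣ := μ.coprod ν
  have hT : ∀ (d : D) (e : E), T (d, e) = (d : C) * (e : C) := fun d e => rfl
  have hg : ∀ (d : D) (e : E), g (d, e) = μ d * ν e := fun d e => rfl
  have hker : T.rangeRestrict.ker ≤ g.ker := by
    rintro ⟨d, e⟩ hde
    rw [MonoidHom.ker_rangeRestrict, MonoidHom.mem_ker, hT] at hde
    rw [MonoidHom.mem_ker, hg]
    have h1 : (e : C) = ((d⁻¹ : D) : C) := by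
      rw [Subgroup.coe_inv]
      exact (inv_eq_of_mul_eq_one_right hde).symm
    have h2 : e ∈ D.subgroupOf E := by
      rw [Subgroup.mem_subgroupOf, h1]
      exact (d⁻¹).2
    have h3 : ν e = μ d⁻¹ := by
      have h4 := DFunLike.congr_fun h ⟨e, h2⟩
      refine h4.trans ?_
      change μ ⟨(e : C), _⟩ = μ d⁻¹
      congr 1
      exact Subtype.ext h1
    rw [h3, map_inv, mul_inv_cancel]
  obtain ⟨lam, hlam⟩ := MonoidHom.domRestrict_surjective (M := ℂ) (G := C) T.range
    (T.rangeRestrict.liftOfSurjective T.rangeRestrict_surjective ⟨g, hker⟩)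
  have h1 : ∀ x : D × E, lam (T x) = g x := by
    intro x
    have h2 := DFunLike.congr_fun hlam (T.rangeRestrict x)
    rw [MonoidHom.liftOfRightInverse_comp_apply] at h2
    exact h2
  refine ⟨lam, ?_, ?_⟩
  · apply MonoidHom.ext
    intro d
    have h2 := h1 (d, 1)
    rw [hT, hg, map_one, mul_one, Subgroup.coe_one, mul_one] at h2
    exact h2
  · apply MonoidHom.ext
    intro e
    have h2 := h1 (1, e)
    rw [hT, hg, map_one, one_mul, Subgroup.coe_one, one_mul] at h2
    exact h2

open Classical in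
theorem card_triv [Fintype (C →* ℂˣ)] :
    (Finset.univ.filter fun lam : C →* ℂˣ => lam.comp D.subtype = 1 ∧ lam.comp E.subtype = 1).card
      = (D ⊔ E).index := by
  have i3 : Fintype (C ⧸ (D ⊔ E)) := Fintype.ofFinite _
  have i4 : HasEnoughRootsOfUnity ℂ (Monoid.exponent (C ⧸ (D ⊔ E))) :=
    hasEnough (Nat.cast_ne_zero.2 Nat.card_pos.ne')
  have h1 : Fintype.card ((C ⧸ (D ⊔ E)) →* ℂˣ) = (D ⊔ E).index := by
    rw [card_dualK, ← Nat.card_eq_fintype_card]
    rfl
  rw [← h1, ← Finset.card_univ]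
  symm
  refine Finset.card_bij (fun κ _ => κ.comp (QuotientGroup.mk' (D ⊔ E))) ?_ ?_ ?_
  · intro κ _
    refine Finset.mem_filter.2 ⟨Finset.mem_univ _, ?_, ?_⟩
    · apply MonoidHom.ext
      intro d
      have h2 : (QuotientGroup.mk' (D ⊔ E)) (d : C) = 1 :=
        (QuotientGroup.eq_one_iff _).2 ((le_sup_left : D ≤ D ⊔ E) d.2)
      rw [MonoidHom.comp_apply, MonoidHom.comp_apply, Subgroup.subtype_apply, h2, map_one]
      rfl
    · apply MonoidHom.ext
      intro d
      have h2 : (QuotientGroup.mk' (D ⊔ E)) (d : C) = 1 :=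
        (QuotientGroup.eq_one_iff _).2 ((le_sup_right : E ≤ D ⊔ E) d.2)
      rw [MonoidHom.comp_apply, MonoidHom.comp_apply, Subgroup.subtype_apply, h2, map_one]
      rfl
  · intro κ _ κ' _ h
    apply MonoidHom.ext
    intro q
    induction q using QuotientGroup.induction_on with | _ q
    exact DFunLike.congr_fun h q
  · intro lam hlam
    obtain ⟨-, h2, h3⟩ := Finset.mem_filter.1 hlam
    have h4 : D ⊔ E ≤ lam.ker := by
      refine sup_le (fun d hd => ?_) (fun d hd => ?_)
      · exact DFunLike.congr_fun h2 ⟨d, hd⟩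
      · exact DFunLike.congr_fun h3 ⟨d, hd⟩
    refine ⟨QuotientGroup.lift (D ⊔ E) lam h4, Finset.mem_univ _, ?_⟩
    apply MonoidHom.ext
    intro c
    rw [MonoidHom.comp_apply, QuotientGroup.mk'_apply, QuotientGroup.lift_mk]

theorem fac (μ : D →* ℂˣ) (x : MonoidAlgebra ℤ E) :
    ek μ (nmv (emS E x) D) = (ek (resE E D μ) (nmv x (D.subgroupOf E))) ^ (D ⊔ E).index := by
  classical
  have i1 : HasEnoughRootsOfUnity ℂ (Monoid.exponent C) :=
    hasEnough (Nat.cast_ne_zero.2 Nat.card_pos.ne')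
  have i2 : HasEnoughRootsOfUnity ℂ (Monoid.exponent E) :=
    hasEnough (Nat.cast_ne_zero.2 Nat.card_pos.ne')
  rw [ek_nmv (Nat.cast_ne_zero.2 Nat.card_pos.ne'), ek_nmv (Nat.cast_ne_zero.2 Nat.card_pos.ne'),
    ← Finset.prod_pow]
  rw [Finset.prod_congr rfl fun lam _ => ek_emS E lam x]
  have hmaps : ∀ lam ∈ exts D μ, lam.comp E.subtype ∈ exts (D.subgroupOf E) (resE E D μ) := by
    intro lam hlam
    rw [mem_exts] at hlam ⊢
    apply MonoidHom.ext
    intro e
    have h1 := DFunLike.congr_fun hlam ⟨((e : E) : C), Subgroup.mem_subgroupOf.1 e.2⟩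
    exact h1
  rw [← Finset.prod_fiberwise_of_maps_to hmaps]
  refine Finset.prod_congr rfl fun ν hν => ?_
  rw [mem_exts] at hν
  have h1 : ∀ lam ∈ (exts D μ).filter (fun lam => lam.comp E.subtype = ν),
      ek (lam.comp E.subtype) x = ek ν x := by
    intro lam hlam
    rw [(Finset.mem_filter.1 hlam).2]
  rw [Finset.prod_congr rfl h1, Finset.prod_const]
  congr 1
  rw [← card_triv E D]
  let R : (C →* ℂˣ) →* (D →* ℂˣ) × (E →* ℂˣ) :=
    { toFun := fun lam => (lam.comp D.subtype, lam.comp E.subtype)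
      map_one' := rfl
      map_mul' := fun _ _ => rfl }
  obtain ⟨lam, hlam1, hlam2⟩ := exists_pair E D μ ν hν
  have h2 := MonoidHom.card_fiber_eq_of_mem_range R (x := (μ, ν)) (y := (1, 1))
    ⟨lam, Prod.ext hlam1 hlam2⟩ ⟨1, rfl⟩
  have h3 : (exts D μ).filter (fun lam => lam.comp E.subtype = ν)
      = Finset.univ.filter (fun lam => R lam = (μ, ν)) := by
    ext lam
    rw [Finset.mem_filter, Finset.mem_filter, mem_exts, Prod.ext_iff]
    exact ⟨fun h => ⟨Finset.mem_univ _, h⟩, fun h => h.2⟩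
  rw [h3, h2]
  congr 1
  ext lam
  rw [Finset.mem_filter, Finset.mem_filter, Prod.ext_iff]
  exact Iff.rfl

end

end H29SM
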