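import Mathlib
import Pool.Agent.H25.SI.KD

/-!
# The ring generated by the `p ^ k`-th powers of the norm vectors

PROOF.  Read `H25SI.functional` and `H25SI.norm_ring` (`Pool/Agent/H25/SI/KD.lean`).  The proof of
`norm_ring` is `prime_to` applied to `functional`.  Here the hypothesis on the functional `l` is
`∀ z, l (nmv z ^ p ^ k) = 0`; copy the proof of `functional` verbatim (same `c`, `h1`, `h2`); in the last
step `h2 (nmv z ^ p ^ k)` gives `∑ x, c x * (phi x z) ^ p ^ k = 0` (`ek` is a ring homomorphism and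
`(nmv z ^ p ^ k) D = (nmv z D) ^ p ^ k`).  The characters `z ↦ (phi x z) ^ p ^ k` of the monoid
`MonoidAlgebra ℤ C` (e.g. `((iterateFrobenius k' p k).toMonoidHom).comp (phi x)`, or
`(powMonoidHom (p ^ k)).comp (phi x)`) are distinct, because `t ↦ t ^ p ^ k` is injective on a field
of characteristic `p` (`iterateFrobenius_inj`) and `phi` is injective (`phi_injective`), so they are
linearly independent (`linearIndependent_monoidHom`).
-/

set_option autoImplicit false
set_option linter.unusedSectionVars false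

namespace H29SM

open H25SI

open Matrix
open scoped IsMulCommutative

theorem functionalP {C : Type} [CommGroup C] [Fintype C] (p : ℕ) [Fact p.Prime]
    (hp : ¬ p ∣ Nat.card C) (n : ℕ)
    (l : (∀ D : Subgroup C, MonoidAlgebra ℤ D) →+ ZMod p)
    (hl : ∀ z : MonoidAlgebra ℤ C, l (nmv z ^ (p ^ n)) = 0) : l = 0 := by
  classical
  let k := AlgebraicClosure (ZMod p)
  have : CharP k p := inferInstance
  have hC : (Nat.card C : k) ≠ 0 := fun h => hp ((CharP.cast_eq_zero_iff k p _).1 h)
  have i0 : HasEnoughRootsOfUnity k (Monoid.exponent C) := hasEnough hC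
  have i1 : ∀ D : Subgroup C, HasEnoughRootsOfUnity k (Monoid.exponent D) := fun D => enough_sub D
  let i2 : ∀ D : Subgroup C, Fintype D := fun D => Fintype.ofFinite D
  let i3 : Fintype (Subgroup C) := Fintype.ofFinite _
  let io : ZMod p →+* k := algebraMap (ZMod p) k
  let b : ∀ D : Subgroup C, D → (∀ D : Subgroup C, MonoidAlgebra ℤ D) := fun D a =>
    Pi.single D (MonoidAlgebra.single a 1)
  let c : (Σ D : Subgroup C, (D →* kˣ)) → k := fun x =>
    (Nat.card x.1 : k)⁻¹ * ∑ a : x.1, io (l (b x.1 a)) * ((x.2 a⁻¹ : kˣ) : k)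
  have h1 : ∀ y : (∀ D : Subgroup C, MonoidAlgebra ℤ D),
      l y = ∑ D : Subgroup C, ∑ a : D, (y D).coeff a • l (b D a) := by
    intro y
    conv_lhs => rw [← Finset.univ_sum_single y]
    rw [map_sum]
    refine Finset.sum_congr rfl fun D _ => ?_
    conv_lhs => rw [single_sum D (y D)]
    have h2 := map_sum (l.comp (AddMonoidHom.single (fun D : Subgroup C => MonoidAlgebra ℤ D) D))
      (fun a : D => (y D).coeff a • MonoidAlgebra.single a (1 : ℤ)) Finset.univ
    refine h2.trans ?_
    refine Finset.sum_congr rfl fun a _ => ?_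
    rw [map_zsmul]
    rfl
  have h2 : ∀ y : (∀ D : Subgroup C, MonoidAlgebra ℤ D),
      io (l y) = ∑ x : (Σ D : Subgroup C, (D →* kˣ)), c x * ek x.2 (y x.1) := by
    intro y
    rw [h1, map_sum, Fintype.sum_sigma]
    refine Finset.sum_congr rfl fun D _ => ?_
    rw [map_sum]
    have hD := card_sub_ne (k := k) hC D
    have h3 : ∀ μ : D →* kˣ, c ⟨D, μ⟩ * ek μ (y D)
        = ∑ a : D, ∑ e : D, (Nat.card D : k)⁻¹ * io (l (b D a)) * ((y D).coeff e : k)
            * ((μ (a⁻¹ * e) : kˣ) : k) := by
      intro μ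
      simp only [c]
      rw [ek_sum, mul_assoc, Finset.sum_mul_sum, Finset.mul_sum]
      refine Finset.sum_congr rfl fun a _ => ?_
      rw [Finset.mul_sum]
      refine Finset.sum_congr rfl fun e _ => ?_
      rw [map_mul, Units.val_mul]
      ring
    rw [Finset.sum_congr rfl fun μ _ => h3 μ, Finset.sum_comm]
    refine Finset.sum_congr rfl fun a _ => ?_
    rw [Finset.sum_comm]
    have h4 : ∀ e : D, ∑ μ : D →* kˣ, (Nat.card D : k)⁻¹ * io (l (b D a)) * ((y D).coeff e : k)
            * ((μ (a⁻¹ * e) : kˣ) : k)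
        = if e = a then io (l (b D a)) * ((y D).coeff e : k) else 0 := by
      intro e
      rw [← Finset.mul_sum, sum_charsK]
      by_cases h : e = a
      · rw [if_pos h, if_pos (by rw [h, inv_mul_cancel]), ← Nat.card_eq_fintype_card]
        have h5 : (Nat.card D : k)⁻¹ * io (l (b D a)) * ((y D).coeff e : k) * (Nat.card D : k)
            = ((Nat.card D : k)⁻¹ * (Nat.card D : k)) * (io (l (b D a)) * ((y D).coeff e : k)) := by
          ring
        rw [h5, inv_mul_cancel₀ hD, one_mul]
      · rw [if_neg h, if_neg (by rw [inv_mul_eq_one]; exact fun h' => h h'.symm), mul_zero]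
    rw [Finset.sum_congr rfl fun e _ => h4 e, Finset.sum_ite_eq' , if_pos (Finset.mem_univ _),
      map_zsmul, zsmul_eq_mul, mul_comm]
  have hinj : Function.Injective (fun x : (Σ D : Subgroup C, (D →* kˣ)) =>
      (powMonoidHom (p ^ n) : k →* k).comp (phi (C := C) (k := k) x)) := by
    intro x y hxy
    apply phi_injective (C := C) p hC
    apply MonoidHom.ext
    intro z
    have h3 := DFunLike.congr_fun hxy z
    have h4 : (phi (C := C) (k := k) x z) ^ (p ^ n) = (phi (C := C) (k := k) y z) ^ (p ^ n) := h3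
    rw [← iterateFrobenius_def, ← iterateFrobenius_def] at h4
    exact iterateFrobenius_inj k p n h4
  have hli := (linearIndependent_monoidHom (MonoidAlgebra ℤ C) k).comp _ hinj
  have hc : ∀ x, c x = 0 := by
    refine Fintype.linearIndependent_iff.1 hli c ?_
    funext z
    rw [Finset.sum_apply]
    have h3 := h2 (nmv z ^ (p ^ n))
    rw [hl, map_zero] at h3
    rw [Pi.zero_apply, h3]
    refine Finset.sum_congr rfl fun x _ => ?_
    rw [Pi.pow_apply, map_pow]
    rfl
  apply AddMonoidHom.ext
  intro y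
  have h3 : io (l y) = 0 := by
    rw [h2]
    exact Finset.sum_eq_zero fun x _ => by rw [hc, zero_mul]
  exact (map_eq_zero io).1 h3

theorem norm_ringP {C : Type} [CommGroup C] [Fintype C] (p : ℕ) [hp : Fact p.Prime]
    (hpC : ¬ p ∣ Nat.card C) (k : ℕ) :
    ∃ m : ℤ, ¬ (p : ℤ) ∣ m ∧ ∀ y : (∀ D : Subgroup C, MonoidAlgebra ℤ D),
      m • y ∈ Subring.closure (Set.range fun x : MonoidAlgebra ℤ C => nmv x ^ (p ^ k)) := by
  have := finite_ring (C := C)
  exact prime_to p (AddSubgroup.toIntSubmodule (Subring.closure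
    (Set.range fun x : MonoidAlgebra ℤ C => nmv x ^ (p ^ k))).toAddSubgroup) fun l hl =>
      functionalP p hpC k l fun z => hl _ (Subring.subset_closure ⟨z, rfl⟩)

end H29SM
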