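import Mathlib
import Pool.Agent.H29.SM.NormP
import Pool.Agent.H29.SM.Fac
import Pool.Agent.H29.SM.Defs

/-!
# The functions from the reduced norms

PROOF of `exists_J`.  Let `E = EE q C` (elements with `c ^ u = 1`, i.e. `c = c ^ v`, of order prime to `p`), so
`¬ p ∣ Nat.card E` (Cauchy).  `(D ⊔ E).index` is a power `p ^ k`: `C ⧸ (D ⊔ E)` is a `p`-group, because for `c : C`
`c ^ (p ^ q.r) ∈ E`  (`(c ^ p ^ r) ^ u = 1`) (`IsPGroup.iff_card`/`IsPGroup.exists_card_eq`).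
Take `m` from `norm_ringP` for the group `E`, `p`, `k`.
For `x : MonoidAlgebra ℤ E`: the reduced norm of the 1 x 1 matrix `emC j (emS E x)` at `π` is
`ek (resD κ j hκ d.D d.η) (nmv (emS E x) d.D)` (`H25SI.dat_det`, `reducedNorm_one`, see `H25SI.partB` in
`Pool/Agent/H25/SI/Two.lean`), which by `fac` is
`(ek ν (nmv x (d.D.subgroupOf E))) ^ (d.D ⊔ E).index`, `ν = resE E d.D (resD κ j hκ d.D d.η)`, `= ek ν ((nmv x ^ p ^ k)
(d.D.subgroupOf E))` whenever `d.D ⊔ E = D ⊔ E`.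
Hence (closure induction: `Subring.closure_induction`) for every `y` in
`Subring.closure (Set.range fun x => nmv x ^ p ^ k)` there is `J ∈ integralityRing G` with
`J π = ek ν_π (y (d.D.subgroupOf E))` for all `π` and all `d : Dat κ j π` with `d.D ⊔ E = D ⊔ E`.
Apply this to `y = m • Pi.single (D.subgroupOf E) (single ⟨⟨e, heE⟩, _⟩ 1)`: if
`d.D.subgroupOf E = D.subgroupOf E` (iff `d.D ⊓ E = D ⊓ E`) the value is `m * ν_π(e) = m * dval κ j d (j e)`,
otherwise `0` (`Pi.single_eq_of_ne`).  (`ek` and `cv`, `resD`, `resE`, `dval` all evaluate the same character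
`d.η` at `j e`.)
-/

set_option autoImplicit false
set_option linter.unusedSectionVars false

namespace H29SM

open H25SI
open scoped IsMulCommutative

section
variable {G : Type} [Group G] [Fintype G] {C : Type} [CommGroup C] [Fintype C] (κ : G →* C)
  (j : C →* G) [IsMulCommutative κ.ker] [Fintype κ.ker]

theorem pow_cardC' (hκ : ∀ c, κ (j c) = c) (c : C) : c ^ Nat.card G = 1 := by
  have h1 : j c ^ Nat.card G = 1 := pow_card_eq_one'
  have h2 := congrArg κ h1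
  rwa [map_pow, hκ, map_one] at h2

theorem mem_EE {p n : ℕ} (q : PQ p n) (c : C) : c ∈ EE q C ↔ c ^ q.u = 1 := Iff.rfl

theorem card_EE (hκ : ∀ c, κ (j c) = c) (p : ℕ) [hp : Fact p.Prime] (q : PQ p (Nat.card G)) :
    ¬ p ∣ Nat.card (EE q C) := by
  intro h
  obtain ⟨x, hx⟩ := exists_prime_orderOf_dvd_card' p h
  have hx1 : ((x : C)) ^ q.u = 1 := (mem_EE q _).1 x.2
  have ho : orderOf (x : C) = p := by rw [Subgroup.orderOf_coe, hx]
  have hn : (x : C) ^ Nat.card G = 1 := pow_cardC' κ j hκ _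
  have h1 : p ∣ q.u := by
    have h0 := orderOf_dvd_of_pow_eq_one hx1
    rwa [ho] at h0
  have h2 : p ∣ Nat.card G := by
    have h0 := orderOf_dvd_of_pow_eq_one hn
    rwa [ho] at h0
  have h3 : p ∣ q.v * q.m := h2.trans q.hv
  rcases (hp.out.dvd_mul).1 h3 with h4 | h4
  · have h5 : q.u + q.v ≡ 1 [MOD p] := q.add.of_dvd h2
    have h6 : q.u + q.v ≡ 0 [MOD p] := (Nat.modEq_zero_iff_dvd).2 (dvd_add h1 h4)
    have h7 : 1 ≡ 0 [MOD p] := h5.symm.trans h6
    exact hp.out.one_lt.ne' (Nat.dvd_one.1 ((Nat.modEq_zero_iff_dvd).1 h7))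
  · exact q.hm h4

theorem index_sup (hκ : ∀ c, κ (j c) = c) (p : ℕ) [hp : Fact p.Prime] (q : PQ p (Nat.card G))
    (D : Subgroup C) : ∃ k : ℕ, (D ⊔ EE q C).index = p ^ k := by
  have h1 : IsPGroup p (C ⧸ (D ⊔ EE q C)) := by
    intro g
    refine ⟨q.r, ?_⟩
    induction g using QuotientGroup.induction_on with | _ c
    rw [← QuotientGroup.mk_pow, QuotientGroup.eq_one_iff]
    apply (le_sup_right : EE q C ≤ D ⊔ EE q C)
    rw [mem_EE, ← pow_mul]
    obtain ⟨t, ht⟩ := q.hu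
    rw [mul_comm, ht, pow_mul, pow_cardC' κ j hκ, one_pow]
  obtain ⟨k, hk⟩ := IsPGroup.iff_card.1 h1
  exact ⟨k, by rw [Subgroup.index_eq_card, hk]⟩

open Classical in
theorem ek_pi {E : Type} [CommGroup E] (D₀ : Subgroup E) (a : D₀) (D' : Subgroup E) (h : D' = D₀)
    (ν : D' →* ℂˣ) :
    ek ν ((Pi.single D₀ (MonoidAlgebra.single a (1 : ℤ)) : ∀ D : Subgroup E, MonoidAlgebra ℤ D) D')
      = ((ν ⟨(a : E), h ▸ a.2⟩ : ℂˣ) : ℂ) := by
  subst h
  rw [Pi.single_eq_same, ek_single, Int.cast_one, one_mul]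

theorem closure_J (hκ : ∀ c, κ (j c) = c) {p : ℕ} (q : PQ p (Nat.card G)) (D : Subgroup C)
    [Fintype (EE q C)] (k : ℕ) (hk : (D ⊔ EE q C).index = p ^ k)
    (y : ∀ D' : Subgroup (EE q C), MonoidAlgebra ℤ D')
    (hy : y ∈ Subring.closure (Set.range fun x : MonoidAlgebra ℤ (EE q C) => nmv x ^ (p ^ k))) :
    ∃ J ∈ integralityRing G, ∀ (π : IrrRep G) (d : Dat κ j π), d.D ⊔ EE q C = D ⊔ EE q C →
      J π = ek (resE (EE q C) d.D (resD κ j hκ d.D d.η)) (y (d.D.subgroupOf (EE q C))) := by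
  induction hy using Subring.closure_induction with
  | mem x hx =>
    obtain ⟨x, rfl⟩ := hx
    refine ⟨reducedNorm (Matrix.of fun _ _ : Fin 1 => emC j (emS (EE q C) x)),
      Subring.subset_closure (Or.inr ⟨1, _, rfl⟩), fun π d hd => ?_⟩
    rw [reducedNorm_one, dat_det hκ d, fac, hd, hk]
    exact (map_pow _ _ _).symm
  | zero =>
    exact ⟨0, Subring.zero_mem _, fun π d _ => by rw [Pi.zero_apply, Pi.zero_apply, map_zero]⟩
  | one =>
    exact ⟨1, Subring.one_mem _, fun π d _ => by rw [Pi.one_apply, Pi.one_apply, map_one]⟩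
  | add x y _ _ h1 h2 =>
    obtain ⟨J1, hJ1, h1⟩ := h1
    obtain ⟨J2, hJ2, h2⟩ := h2
    exact ⟨J1 + J2, Subring.add_mem _ hJ1 hJ2, fun π d hd => by
      rw [Pi.add_apply, Pi.add_apply, map_add, h1 π d hd, h2 π d hd]⟩
  | neg x _ h1 =>
    obtain ⟨J1, hJ1, h1⟩ := h1
    exact ⟨-J1, Subring.neg_mem _ hJ1, fun π d hd => by
      rw [Pi.neg_apply, Pi.neg_apply, map_neg, h1 π d hd]⟩
  | mul x y _ _ h1 h2 =>
    obtain ⟨J1, hJ1, h1⟩ := h1
    obtain ⟨J2, hJ2, h2⟩ := h2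
    exact ⟨J1 * J2, Subring.mul_mem _ hJ1 hJ2, fun π d hd => by
      rw [Pi.mul_apply, Pi.mul_apply, map_mul, h1 π d hd, h2 π d hd]⟩

open Classical in
theorem exists_J (hκ : ∀ c, κ (j c) = c) (p : ℕ) [Fact p.Prime] (q : PQ p (Nat.card G))
    (D : Subgroup C) : ∃ m : ℤ, ¬ (p : ℤ) ∣ m ∧ ∀ e : C, e ∈ D → e ∈ EE q C →
      ∃ J ∈ integralityRing G, ∀ (π : IrrRep G) (d : Dat κ j π), d.D ⊔ EE q C = D ⊔ EE q C →
        J π = if d.D ⊓ EE q C = D ⊓ EE q C then (m : ℂ) * dval κ j d (j e) else 0 := by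
  classical
  have i1 : Fintype (EE q C) := Fintype.ofFinite _
  obtain ⟨k, hk⟩ := index_sup κ j hκ p q D
  obtain ⟨m, hm, hmy⟩ := norm_ringP (C := EE q C) p (card_EE κ j hκ p q) k
  refine ⟨m, hm, fun e he heE => ?_⟩
  have heD : (⟨e, heE⟩ : EE q C) ∈ D.subgroupOf (EE q C) := Subgroup.mem_subgroupOf.2 he
  obtain ⟨J, hJ, hJv⟩ := closure_J κ j hκ q D k hk _
    (hmy (Pi.single (D.subgroupOf (EE q C)) (MonoidAlgebra.single ⟨⟨e, heE⟩, heD⟩ (1 : ℤ))))
  refine ⟨J, hJ, fun π d hd => ?_⟩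
  rw [hJv π d hd, Pi.smul_apply, map_zsmul, zsmul_eq_mul]
  by_cases h : d.D ⊓ EE q C = D ⊓ EE q C
  · have h1 : d.D.subgroupOf (EE q C) = D.subgroupOf (EE q C) := by
      rw [← Subgroup.inf_subgroupOf_right, h, Subgroup.inf_subgroupOf_right]
    have hed : e ∈ d.D := by
      have h2 : e ∈ d.D ⊓ EE q C := by
        rw [h]
        exact ⟨he, heE⟩
      exact h2.1
    have hej : j e ∈ d.D.comap κ := by
      rw [Subgroup.mem_comap, hκ]
      exact hed
    rw [if_pos h, ek_pi _ _ _ h1, dval, dif_pos hej]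
    rfl
  · have h1 : d.D.subgroupOf (EE q C) ≠ D.subgroupOf (EE q C) := by
      intro h2
      apply h
      have h3 := congrArg (Subgroup.map (EE q C).subtype) h2
      rwa [Subgroup.subgroupOf_map_subtype, Subgroup.subgroupOf_map_subtype] at h3
    rw [if_neg h, Pi.single_eq_of_ne h1, map_zero, mul_zero]

end

end H29SM
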