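import Mathlib
import Pool.Agent.H29.SM.Cen
import Pool.Agent.H29.SM.Jf

/-!
# Primes with commuting `p`-parts
-/

set_option autoImplicit false
set_option linter.unusedSectionVars false

namespace H29SM

open H25SI
open scoped IsMulCommutative

section
variable {G : Type} [Group G] [Fintype G] {C : Type} [CommGroup C] [Fintype C] (κ : G →* C)
  (j : C →* G) [IsMulCommutative κ.ker] [Fintype κ.ker]

theorem dval_mul (hκ : ∀ c, κ (j c) = c) {π : IrrRep G} (d : Dat κ j π) {c e : C} (hc : c ∈ d.D)
    (he : e ∈ d.D) : dval κ j d (j c) * dval κ j d (j e) = dval κ j d (j (c * e)) := by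
  have hm : ∀ {c : C}, c ∈ d.D → j c ∈ d.D.comap κ := fun {c} hc => by
    rw [Subgroup.mem_comap, hκ]
    exact hc
  rw [dval, dval, dval, dif_pos (hm hc), dif_pos (hm he), dif_pos (hm (d.D.mul_mem hc he)),
    ← Units.val_mul, ← map_mul]
  congr 2
  apply Subtype.ext
  exact (map_mul j c e).symm

theorem dval_resD (hκ : ∀ c, κ (j c) = c) {π : IrrRep G} (d : Dat κ j π) (c : d.D) :
    cv (resD κ j hκ d.D d.η) c = dval κ j d (j c) := by
  have hm : j (c : C) ∈ d.D.comap κ := by
    rw [Subgroup.mem_comap, hκ]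
    exact c.2
  rw [dval, dif_pos hm]
  rfl

/-- the value of `θ` -/
theorem theta_dat (hκ : ∀ c, κ (j c) = c) (Λ : (G → ℂ) → ℂ)
    (b : ∀ D : Subgroup C, MonoidAlgebra ℤ (D.comap κ))
    (hb : ∀ (D : Subgroup C) (η : D.comap κ →* ℂˣ), Λ (indChar (D.comap κ) η) = ev η (b D))
    {π : IrrRep G} (d : Dat κ j π) [Fintype d.D] : theta Λ π
      = ∑ c : d.D, ev (resA κ d.D d.η) (be κ j d.D (b d.D) c) * dval κ j d (j c) := by
  have h1 : theta Λ π = ev d.η (b d.D) := by
    rw [theta, ← hb]
    congr 1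
    funext g
    exact dat_char hκ d g
  rw [h1, ev_be κ j hκ]
  exact Finset.sum_congr rfl fun c _ => by rw [dval_resD κ j hκ d c]

theorem exists_mul (hκ : ∀ c, κ (j c) = c) (Λ : (G → ℂ) → ℂ)
    (b : ∀ D : Subgroup C, MonoidAlgebra ℤ (D.comap κ))
    (hb : ∀ (D : Subgroup C) (η : D.comap κ →* ℂˣ), Λ (indChar (D.comap κ) η) = ev η (b D))
    (p : ℕ) [hp : Fact p.Prime] (q : PQ p (Nat.card G))
    (hcomm : ∀ (c : C) (a : κ.ker), MulAut.conjNormal (j (c ^ q.u)) (a ^ q.u) = a ^ q.u) :
    ∃ m : ℤ, ¬ (p : ℤ) ∣ m ∧ m • theta Λ ∈ integralityRing G := by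
  classical
  have i2 : ∀ D : Subgroup C, Fintype D := fun D => Fintype.ofFinite _
  have i3 : Fintype (Subgroup C) := Fintype.ofFinite _
  have hcard : ∀ c : C, c ^ Nat.card G = 1 := pow_cardC κ j hκ
  obtain ⟨N, uk, hN, huk⟩ := exists_uK κ j p q
  choose m hm J hJ hJv using fun D : Subgroup C => exists_J κ j hκ p q D
  choose z hz hzv using fun (D : Subgroup C) (c : D) =>
    exists_central κ j hκ p q hcomm Λ D (b D) (hb D) N uk huk c
  have huD : ∀ (D : Subgroup C) (c : D), (c : C) ^ q.v ∈ D := fun D c => D.pow_mem c.2 _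
  have huE : ∀ (D : Subgroup C) (c : D), (c : C) ^ q.v ∈ EE q C := fun D c => by
    change ((c : C) ^ q.v) ^ q.u = 1
    exact v_u q (c : C) (hcard c)
  let M : ℤ := (∏ D : Subgroup C, m D) * N
  have hprod : ∀ D : Subgroup C, ∃ k : ℤ, (∏ D : Subgroup C, m D) = k * m D := fun D =>
    ⟨∏ D' ∈ Finset.univ.erase D, m D', (Finset.prod_erase_mul _ _ (Finset.mem_univ D)).symm⟩
  choose k hk using hprod
  refine ⟨M, ?_, ?_⟩
  · intro h
    have hpi := Nat.prime_iff_prime_int.1 hp.out
    rcases hpi.dvd_or_dvd h with h1 | h1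
    · obtain ⟨D, -, hD⟩ := (Prime.dvd_finset_prod_iff hpi _).1 h1
      exact hm D hD
    · exact hN (Int.natCast_dvd_natCast.1 h1)
  · have key : M • theta Λ = ∑ D : Subgroup C, ∑ c : D,
        (k D) • (J D ((c : C) ^ q.v) (huD D c) (huE D c) * centralValue (z D c)) := by
      funext π
      obtain ⟨d⟩ := exists_dat κ j hκ π
      rw [Finset.sum_apply, Finset.sum_eq_single d.D]
      · rw [Pi.smul_apply, theta_dat κ j hκ Λ b hb d, Finset.sum_apply, zsmul_eq_mul,
          Finset.mul_sum]
        refine Finset.sum_congr rfl fun c _ => ?_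
        rw [Pi.smul_apply, Pi.mul_apply, (hzv d.D c π d).2 rfl, hJv d.D _ (huD d.D c) (huE d.D c) π d rfl,
          if_pos rfl, zsmul_eq_mul]
        have h1 : dval κ j d (j (c : C))
            = dval κ j d (j ((c : C) ^ q.u)) * dval κ j d (j ((c : C) ^ q.v)) := by
          rw [dval_mul κ j hκ d (d.D.pow_mem c.2 _) (huD d.D c), uv_mul q (c : C) (hcard c)]
        rw [h1]
        simp only [M]
        rw [hk d.D]
        push_cast
        ring
      · intro D _ hD
        rw [Finset.sum_apply]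
        refine Finset.sum_eq_zero fun c _ => ?_
        rw [Pi.smul_apply, Pi.mul_apply]
        by_cases hC : Cond κ j q D (resA κ d.D d.η)
        · have h1 := sup_of_Cond κ j hκ p q hcomm d D hC
          rw [hJv D _ (huD D c) (huE D c) π d h1, if_neg, zero_mul, smul_zero]
          intro h2
          apply hD
          -- `D` and `d.D` have the same `p`-part and the same prime to `p` part
          have key2 : ∀ D₁ D₂ : Subgroup C, D₁ ⊔ EE q C = D₂ ⊔ EE q C → D₁ ⊓ EE q C = D₂ ⊓ EE q C →
              D₁ ≤ D₂ := by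
            intro D₁ D₂ hs hi c hc
            have h3 : c ^ q.v ∈ D₂ := by
              have h4 : c ^ q.v ∈ D₁ ⊓ EE q C := ⟨D₁.pow_mem hc _, v_u q c (hcard c)⟩
              rw [hi] at h4
              exact h4.1
            have h5 : c ^ q.u ∈ D₂ := by
              have h6 : c ∈ D₂ ⊔ EE q C := by
                rw [← hs]
                exact Subgroup.mem_sup_left hc
              obtain ⟨x, hx, y, hy, rfl⟩ := Subgroup.mem_sup.1 h6
              have hy' : y ^ q.u = 1 := hy
              rw [mul_pow, hy', mul_one]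
              exact D₂.pow_mem hx _
            rw [← uv_mul q c (hcard c)]
            exact D₂.mul_mem h5 h3
          exact (le_antisymm (key2 _ _ h1 h2) (key2 _ _ h1.symm h2.symm)).symm
        · rw [(hzv D c π d).1 hC, mul_zero, smul_zero]
      · intro h
        exact absurd (Finset.mem_univ _) h
    rw [key]
    refine Subring.sum_mem _ fun D _ => Subring.sum_mem _ fun c _ => Subring.zsmul_mem _ ?_ _
    refine Subring.mul_mem _ (hJ D _ _ _) ?_
    exact Subring.subset_closure (Or.inl ⟨_, hz D c, rfl⟩)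

end

end H29SM
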