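import Mathlib
import Pool.Agent.H29.SM.Rd

/-!
# Abelian Sylow subgroups
-/

set_option autoImplicit false
set_option linter.unusedSectionVars false

namespace H29SM

open H25SI
open scoped IsMulCommutative

section
variable {G : Type} [Group G] [Fintype G] {C : Type} [CommGroup C] [Fintype C] (κ : G →* C)
  (j : C →* G) [IsMulCommutative κ.ker] [Fintype κ.ker]

theorem comm_of_sylow (hκ : ∀ c, κ (j c) = c) (p : ℕ) [hp : Fact p.Prime]
    (q : PQ p (Nat.card G)) (hS : ∀ P : Sylow p G, ∀ x ∈ P, ∀ y ∈ P, x * y = y * x)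
    (c : C) (a : κ.ker) : MulAut.conjNormal (j (c ^ q.u)) (a ^ q.u) = a ^ q.u := by
  -- the `p`-power torsion of the kernel, a normal `p`-subgroup
  let B : Subgroup G :=
    { carrier := {x | x ∈ κ.ker ∧ x ^ p ^ q.r = 1}
      one_mem' := ⟨κ.ker.one_mem, one_pow _⟩
      mul_mem' := by
        rintro x y ⟨hx, hx'⟩ ⟨hy, hy'⟩
        refine ⟨κ.ker.mul_mem hx hy, ?_⟩
        have h1 : Commute x y := congrArg Subtype.val (mul_comm (⟨x, hx⟩ : κ.ker) ⟨y, hy⟩)
        rw [h1.mul_pow, hx', hy', one_mul]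
      inv_mem' := by
        rintro x ⟨hx, hx'⟩
        exact ⟨κ.ker.inv_mem hx, by rw [inv_pow, hx', inv_one]⟩ }
  have hB : B.Normal := ⟨fun x hx g => by
    obtain ⟨h1, h2⟩ := hx
    refine ⟨(inferInstance : κ.ker.Normal).conj_mem x h1 g, ?_⟩
    rw [conj_pow, h2, mul_one, mul_inv_cancel]⟩
  have hBp : IsPGroup p B := fun x => ⟨q.r, Subtype.ext x.2.2⟩
  have hy : IsPGroup p (Subgroup.zpowers (j (c ^ q.u))) := by
    intro x
    refine ⟨q.r, ?_⟩
    obtain ⟨x, hx⟩ := x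
    obtain ⟨k, rfl⟩ := Subgroup.mem_zpowers_iff.1 hx
    apply Subtype.ext
    change (j (c ^ q.u) ^ k) ^ p ^ q.r = 1
    rw [← zpow_natCast, ← zpow_mul, mul_comm, zpow_mul, zpow_natCast, ← map_pow,
      u_pow q c (pow_cardC κ j hκ c), map_one, one_zpow]
  obtain ⟨P, hP⟩ := hy.exists_le_sylow
  have hBP : B ≤ P := by
    have h1 : IsPGroup p (B ⊔ (P : Subgroup G) : Subgroup G) :=
      IsPGroup.to_sup_of_normal_left hBp P.2
    have h2 := P.3 h1 le_sup_right
    rw [← h2]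
    exact le_sup_left
  have hx : ((a ^ q.u : κ.ker) : G) ∈ B :=
    ⟨(a ^ q.u).2, by
      have h1 := u_pow q a (pow_cardA κ a)
      have h2 := congrArg Subtype.val h1
      exact h2⟩
  apply Subtype.ext
  rw [MulAut.conjNormal_apply]
  have h3 := hS P _ (hP (Subgroup.mem_zpowers _)) _ (hBP hx)
  rw [h3, mul_inv_cancel_right]

end

end H29SM
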