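import Mathlib

/-!
# Groups with abelian Sylow subgroups, the case of a `p`-group as commutator subgroup

PROOF of `split_p`.  Let `A := commutator G`, a `p`-group, and `P` a Sylow `p`-subgroup.  `A ≤ P`
(`A` is a normal `p`-subgroup: `IsPGroup.to_sup_of_normal_left` and maximality), so `P` is normal
(it contains the commutator subgroup).  `P` has a complement `H` (Schur-Zassenhaus,
`Subgroup.exists_right_complement'_of_coprime`; `P.card_coprime_index`).  `H` is commutative: for `x y ∈ H`,
`x y x⁻¹ y⁻¹ ∈ A ⊓ H ≤ P ⊓ H = ⊥`.  Let `F := P ⊓ center G`.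
(1) `P ≤ A ⊔ F`: let `x ∈ P`, `n = Nat.card H` (prime to `p`).  `N := ∏ h : H, h x h⁻¹` (product in the commutative
    group `P`) commutes with `P` (commutative) and with `H` (reindex), so with `G = P H`, so `N ∈ F`; and
    `x ^ n = (∏ h : H, x * (h x h⁻¹)⁻¹) * N` with `x (h x h⁻¹)⁻¹ = x h x⁻¹ h⁻¹ ∈ A`.  So `x ^ n ∈ A ⊔ F`, and also
    `x ^ (Nat.card P) = 1`, `n` coprime to `Nat.card P`, so `x ∈ A ⊔ F`.
(2) `A ⊓ F = ⊥`: the transfer `G →* P` (`MonoidHom.transfer (MonoidHom.id P)` with `P` commutative) kills `A`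
    (its target is commutative), and maps a central `x ∈ P` to `x ^ P.index`
    (`MonoidHom.transfer_eq_pow`); so `x ^ P.index = 1` for `x ∈ A ⊓ F`, `P.index` prime to `p`, so `x = 1`.
Put `U := F ⊔ H`.  `A ⊔ U = ⊤` by (1).  `A ⊓ U = ⊥`: an element of `U` is `f h` (`F` central), if it is in
`A ≤ P` then `h ∈ P`, so `h = 1`, and `f ∈ A ⊓ F = ⊥`.  So `A.IsComplement' U`
(`Subgroup.isComplement'_of_disjoint_and_mul_eq_univ`; `A` normal).
-/

set_option autoImplicit false

open scoped commutatorElement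

namespace H29SM

/-- The normal Sylow subgroup is the product of the commutator subgroup and its central part. -/
theorem split_p_sup {G : Type} [Group G] [Finite G] (P H : Subgroup G) [P.Normal]
    (hcomm : ∀ x ∈ P, ∀ y ∈ P, x * y = y * x) (hPH : P.IsComplement' H)
    (hco : (Nat.card P).Coprime P.index) :
    P ≤ commutator G ⊔ (P ⊓ Subgroup.center G) := by
  classical
  intro x hx
  let : CommGroup P := { (inferInstance : Group P) with
    mul_comm := fun a b => Subtype.ext (hcomm a.1 a.2 b.1 b.2) }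
  let : Fintype H := Fintype.ofFinite H
  set xP : P := ⟨x, hx⟩ with hxP
  set N : P := ∏ h : H, MulAut.conjNormal (h : G) xP with hN
  have hNk : ∀ k ∈ H, MulAut.conjNormal k N = N := by
    intro k hk
    rw [hN, map_prod]
    refine Fintype.prod_equiv (Equiv.mulLeft (⟨k, hk⟩ : H)) _ _ ?_
    intro h
    rw [Equiv.coe_mulLeft]
    rw [Subgroup.coe_mul, map_mul]
    rfl
  have hNc : ∀ g : G, MulAut.conjNormal g N = N := by
    intro g
    obtain ⟨⟨a, b⟩, hab⟩ := hPH.2 g
    have hab' : (a : G) * (b : G) = g := hab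
    rw [← hab', map_mul, MulAut.mul_apply, hNk b b.2]
    apply Subtype.ext
    rw [MulAut.conjNormal_apply, hcomm a.1 a.2 N.1 N.2]
    group
  have hNcen : (N : G) ∈ Subgroup.center G := by
    rw [Subgroup.mem_center_iff]
    intro g
    have h1 := congrArg Subtype.val (hNc g)
    rw [MulAut.conjNormal_apply] at h1
    rw [mul_inv_eq_iff_eq_mul] at h1
    exact h1
  have hmem : ((∏ h : H, xP * (MulAut.conjNormal (h : G) xP)⁻¹ : P) : G) ∈ commutator G := by
    have : (∏ h : H, xP * (MulAut.conjNormal (h : G) xP)⁻¹ : P) ∈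
        (commutator G).subgroupOf P := by
      refine Subgroup.prod_mem _ ?_
      intro h _
      rw [Subgroup.mem_subgroupOf, Subgroup.coe_mul, Subgroup.coe_inv, MulAut.conjNormal_apply]
      have : x * ((h : G) * x * (h : G)⁻¹)⁻¹ = ⁅x, (h : G)⁆ := by
        rw [commutatorElement_def]
        group
      rw [hxP]
      show x * ((h : G) * x * (h : G)⁻¹)⁻¹ ∈ _
      rw [this]
      exact Subgroup.commutator_mem_commutator (Subgroup.mem_top _) (Subgroup.mem_top _)
    exact Subgroup.mem_subgroupOf.mp this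
  have hpow : xP ^ (Fintype.card H) = (∏ h : H, xP * (MulAut.conjNormal (h : G) xP)⁻¹) * N := by
    rw [hN, ← Finset.prod_mul_distrib]
    simp
  have hxn : x ^ (Fintype.card H) ∈ commutator G ⊔ (P ⊓ Subgroup.center G) := by
    have h1 := congrArg Subtype.val hpow
    rw [Subgroup.coe_mul, Subgroup.coe_pow] at h1
    have h2 : x ^ (Fintype.card H) = _ := h1
    rw [h2]
    exact Subgroup.mul_mem_sup hmem ⟨N.2, hNcen⟩
  have hind : P.index = Fintype.card H := by
    rw [hPH.symm.index_eq_card, Nat.card_eq_fintype_card]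
  have hcop : (Fintype.card H).Coprime (orderOf x) := by
    rw [← hind]
    refine Nat.Coprime.coprime_dvd_right ?_ hco.symm
    have h1 : orderOf xP = orderOf x := Subgroup.orderOf_mk x hx
    rw [← h1]
    exact orderOf_dvd_natCard xP
  obtain ⟨m, hm⟩ := exists_pow_eq_self_of_coprime hcop
  rw [← hm]
  exact Subgroup.pow_mem _ hxn m

/-- The commutator subgroup meets the central part of the Sylow subgroup trivially. -/
theorem split_p_inf {G : Type} [Group G] [Finite G] (P : Subgroup G)
    (hcomm : ∀ x ∈ P, ∀ y ∈ P, x * y = y * x)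
    (hco : (Nat.card P).Coprime P.index) (x : G) (hxA : x ∈ commutator G)
    (hxP : x ∈ P) (hxc : x ∈ Subgroup.center G) : x = 1 := by
  classical
  let : CommGroup P := { (inferInstance : Group P) with
    mul_comm := fun a b => Subtype.ext (hcomm a.1 a.2 b.1 b.2) }
  have hcen : ∀ g : G, g * x = x * g := fun g => (Subgroup.mem_center_iff.mp hxc) g
  have hker : MonoidHom.transfer (MonoidHom.id P) x = 1 := by
    have h1 : commutator G ≤ (MonoidHom.transfer (MonoidHom.id P)).ker :=
      Abelianization.commutator_subset_ker _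
    exact h1 hxA
  have hkey : ∀ (k : ℕ) (g₀ : G), g₀⁻¹ * x ^ k * g₀ ∈ P → g₀⁻¹ * x ^ k * g₀ = x ^ k := by
    intro k g₀ _
    have h1 : x ^ k * g₀ = g₀ * x ^ k := by
      have : Commute g₀ x := hcen g₀
      exact (this.pow_right k).eq.symm
    rw [mul_assoc, h1]
    group
  rw [MonoidHom.transfer_eq_pow _ x hkey] at hker
  have h2 : x ^ P.index = 1 := congrArg Subtype.val hker
  have h3 : orderOf x ∣ P.index := orderOf_dvd_of_pow_eq_one h2
  have h4 : orderOf x ∣ Nat.card P := by
    have h1 : orderOf (⟨x, hxP⟩ : P) = orderOf x := Subgroup.orderOf_mk x hxP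
    rw [← h1]
    exact orderOf_dvd_natCard _
  have h5 : orderOf x = 1 := Nat.eq_one_of_dvd_coprimes hco h4 h3
  exact orderOf_eq_one_iff.mp h5

theorem split_p {G : Type} [Group G] [Finite G] (p : ℕ) [Fact p.Prime]
    (hA : IsPGroup p (commutator G)) (hS : ∀ P : Sylow p G, ∀ x ∈ P, ∀ y ∈ P, x * y = y * x) :
    ∃ U : Subgroup G, (commutator G).IsComplement' U := by
  classical
  obtain ⟨P⟩ : Nonempty (Sylow p G) := inferInstance
  have hAP : commutator G ≤ (P : Subgroup G) := hA.le_sylow_of_normal P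
  have : (P : Subgroup G).Normal := Subgroup.Normal.of_commutator_le _ hAP
  have hco := P.card_coprime_index
  obtain ⟨H, hPH⟩ := Subgroup.exists_right_complement'_of_coprime hco
  have hcomm : ∀ x ∈ (P : Subgroup G), ∀ y ∈ (P : Subgroup G), x * y = y * x := hS P
  have h1 := split_p_sup (P : Subgroup G) H hcomm hPH hco
  have h2 := split_p_inf (P : Subgroup G) hcomm hco
  have hdis : (P : Subgroup G) ⊓ H = ⊥ := hPH.disjoint.eq_bot
  refine ⟨((P : Subgroup G) ⊓ Subgroup.center G) ⊔ H, ?_⟩
  have : ((P : Subgroup G) ⊓ Subgroup.center G).Normal := inferInstance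
  apply Subgroup.isComplement'_of_disjoint_and_mul_eq_univ
  · rw [disjoint_iff, eq_bot_iff]
    rintro u ⟨huA, huU⟩
    have huA' : u ∈ commutator G := huA
    have huU' : u ∈ ((((P : Subgroup G) ⊓ Subgroup.center G) ⊔ H : Subgroup G) : Set G) := huU
    rw [Subgroup.normal_mul] at huU'
    obtain ⟨f, hf, h, hh, hfh⟩ := huU'
    have hfh' : f * h = u := hfh
    have hf' : f ∈ (P : Subgroup G) ∧ f ∈ Subgroup.center G := hf
    have hhP : h ∈ (P : Subgroup G) := by
      have : h = f⁻¹ * u := by rw [← hfh']; group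
      rw [this]
      exact mul_mem (inv_mem hf'.1) (hAP huA')
    have hh1 : h = 1 := by
      have : h ∈ (P : Subgroup G) ⊓ H := ⟨hhP, hh⟩
      rw [hdis] at this
      exact Subgroup.mem_bot.mp this
    rw [hh1, mul_one] at hfh'
    rw [Subgroup.mem_bot]
    exact h2 u huA' (hAP huA') (hfh' ▸ hf'.2)
  · rw [← Subgroup.normal_mul]
    have : commutator G ⊔ (((P : Subgroup G) ⊓ Subgroup.center G) ⊔ H) = ⊤ := by
      rw [eq_top_iff, ← hPH.sup_eq_top, ← sup_assoc]
      exact sup_le_sup_right h1 H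
    rw [this]
    rfl

end H29SM
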