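import Mathlib
import Pool.Agent.H29.SM.TaP

/-!
# Groups with abelian Sylow subgroups: the commutator subgroup splits off

Uses `split_p` (file TaP).

PROOF of `split_abelian_sylow`.  Strong induction on `Nat.card G`.  Let `A := commutator G`, commutative.  If
`A = ⊥`: `U = ⊤`.  Otherwise let `p` be a prime dividing `Nat.card A`, `B := {x ∈ A | x ^ m = 1}` with `m` the
prime to `p` part of `Nat.card A` (the `p'`-part of `A`), normal in `G`, `B < A`, `A / B` a `p`-group.
`split_p` applies to `G ⧸ B`: its commutator subgroup is the image of `A` (`map_commutator`-type lemmas,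
surjectivity), a `p`-group, and its Sylow `p`-subgroups are images of Sylow `p`-subgroups of `G`
(`Sylow.mapSurjective` or: pull back and use order; every `p`-subgroup of `G ⧸ B` ... ), hence commutative.
Let `U ≥ B` be the preimage of the complement: `U ⊓ A = B`, `U ⊔ A = ⊤`.  `U ≠ ⊤` since `U ⊓ A = B ≠ A`.  Sylow
subgroups of `U` are commutative (contained in Sylow subgroups of `G`).  `commutator U` is `B`:
`[U, U] ≤ U ⊓ A = B`; and `A = [G, G]`, so with `G = U A`, `A` commutative: `A = [U, U] [U, A]`... ; one gets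
`B ≤ [U, U]` from: `[B, G] = B`  (for `b ∈ B`; `A = B × A_p`, the projection `π_B : A → B`, `a ↦ a ^ k`, is
`G`-equivariant, and `A` is generated by commutators `[u a, u' a'] = [u,u'] * [u, a'-part] * ...`; apply `π_B`:
`B` is generated by `π_B [u, u']`, `u u' ∈ U`, and `π_B [u, a] = [u, π_B a]`, all in `[U, U]` since `π_B` is the
identity on `[U, U] ≤ B`).  By induction `commutator U` has a complement `C` in `U`; `C` (as subgroup of `G`) is a
complement of `A`: `C ⊓ A = C ⊓ U ⊓ A = C ⊓ B = ⊥`, `C A ⊇ C B A = U A = G`.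
(Any other proof is welcome, e.g. via Carter subgroups or cohomology.)
-/

set_option autoImplicit false

namespace H29SM

/-- One prime: a subgroup of index the `p`-part of `Nat.card (commutator G)` which meets the
commutator subgroup in elements of order prime to `p`. -/
theorem one_prime {G : Type} [Group G] [Finite G]
    (hA : ∀ a ∈ commutator G, ∀ b ∈ commutator G, a * b = b * a)
    (hS : ∀ p : ℕ, p.Prime → ∀ P : Sylow p G, ∀ x ∈ P, ∀ y ∈ P, x * y = y * x)
    (p : ℕ) (hp : p.Prime) :
    ∃ U : Subgroup G, (∀ x ∈ commutator G, x ∈ U →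
      x ^ (Nat.card (commutator G) / p ^ (Nat.card (commutator G)).factorization p) = 1) ∧
      U.index ≤ p ^ (Nat.card (commutator G)).factorization p := by
  haveI : Fact p.Prime := ⟨hp⟩
  obtain ⟨n, hn⟩ : ∃ n, n = Nat.card (commutator G) := ⟨_, rfl⟩
  have hn0 : n ≠ 0 := by rw [hn]; exact Nat.card_pos.ne'
  rw [← hn]
  obtain ⟨m, hm⟩ : ∃ m, m = n / p ^ n.factorization p := ⟨_, rfl⟩
  rw [← hm]
  have hmn : p ^ n.factorization p * m = n := by
    rw [hm]; exact Nat.mul_div_cancel' (Nat.ordProj_dvd n p)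
  have hpow : ∀ x ∈ commutator G, x ^ n = 1 := by
    intro x hx
    have h := pow_card_eq_one' (x := (⟨x, hx⟩ : commutator G))
    rw [← hn] at h
    exact congrArg Subtype.val h
  let B : Subgroup G :=
    { carrier := {x | x ∈ commutator G ∧ x ^ m = 1}
      one_mem' := ⟨(commutator G).one_mem, one_pow _⟩
      mul_mem' := by
        rintro x y ⟨hx, hx'⟩ ⟨hy, hy'⟩
        refine ⟨(commutator G).mul_mem hx hy, ?_⟩
        have h1 : Commute x y := hA x hx y hy
        rw [h1.mul_pow, hx', hy', one_mul]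
      inv_mem' := by
        rintro x ⟨hx, hx'⟩
        exact ⟨(commutator G).inv_mem hx, by rw [inv_pow, hx', inv_one]⟩ }
  have hBmem : ∀ x, x ∈ B ↔ x ∈ commutator G ∧ x ^ m = 1 := fun x => Iff.rfl
  haveI hB : B.Normal := ⟨fun x hx g => by
    obtain ⟨h1, h2⟩ := hx
    refine ⟨(inferInstance : (commutator G).Normal).conj_mem x h1 g, ?_⟩
    rw [conj_pow, h2, mul_one, mul_inv_cancel]⟩
  have hsurj : Function.Surjective (QuotientGroup.mk' B) := QuotientGroup.mk'_surjective B
  have hcomm : commutator (G ⧸ B) = (commutator G).map (QuotientGroup.mk' B) := by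
    rw [commutator_def, commutator_def, Subgroup.map_commutator,
      Subgroup.map_top_of_surjective _ hsurj]
  have hAp : IsPGroup p (commutator (G ⧸ B)) := by
    rintro ⟨x, hx⟩
    rw [hcomm, Subgroup.mem_map] at hx
    obtain ⟨a, ha, rfl⟩ := hx
    refine ⟨n.factorization p, Subtype.ext ?_⟩
    change (QuotientGroup.mk' B a) ^ p ^ n.factorization p = 1
    rw [← map_pow]
    change ((a ^ p ^ n.factorization p : G) : G ⧸ B) = 1
    rw [QuotientGroup.eq_one_iff, hBmem]
    refine ⟨(commutator G).pow_mem ha _, ?_⟩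
    rw [← pow_mul, hmn]
    exact hpow a ha
  have hSp : ∀ Q : Sylow p (G ⧸ B), ∀ x ∈ Q, ∀ y ∈ Q, x * y = y * x := by
    intro Q x hx y hy
    obtain ⟨P, rfl⟩ := Sylow.mapSurjective_surjective hsurj p Q
    have hx' : x ∈ (P : Subgroup G).map (QuotientGroup.mk' B) := hx
    have hy' : y ∈ (P : Subgroup G).map (QuotientGroup.mk' B) := hy
    rw [Subgroup.mem_map] at hx' hy'
    obtain ⟨a, ha, rfl⟩ := hx'
    obtain ⟨b, hb, rfl⟩ := hy'
    rw [← map_mul, ← map_mul, hS p hp P a ha b hb]
  obtain ⟨U', hU'⟩ := split_p p hAp hSp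
  refine ⟨U'.comap (QuotientGroup.mk' B), ?_, ?_⟩
  · intro x hx hxU
    have h1 : QuotientGroup.mk' B x ∈ commutator (G ⧸ B) := by
      rw [hcomm]; exact Subgroup.mem_map_of_mem _ hx
    have h2 : QuotientGroup.mk' B x ∈ commutator (G ⧸ B) ⊓ U' := ⟨h1, hxU⟩
    rw [hU'.disjoint.eq_bot, Subgroup.mem_bot] at h2
    have h3 : (x : G ⧸ B) = 1 := h2
    rw [QuotientGroup.eq_one_iff, hBmem] at h3
    exact h3.2
  · rw [Subgroup.index_comap_of_surjective _ hsurj, hU'.index_eq_card]
    obtain ⟨k, hk⟩ := IsPGroup.iff_card.1 hAp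
    have h1 : Nat.card (commutator (G ⧸ B)) ∣ n := by
      rw [hcomm, hn]; exact Subgroup.card_map_dvd _ _
    rw [hk] at h1 ⊢
    exact Nat.pow_le_pow_right hp.pos ((hp.pow_dvd_iff_le_factorization hn0).1 h1)

theorem split_abelian_sylow {G : Type} [Group G] [Finite G]
    (hA : ∀ a ∈ commutator G, ∀ b ∈ commutator G, a * b = b * a)
    (hS : ∀ p : ℕ, p.Prime → ∀ P : Sylow p G, ∀ x ∈ P, ∀ y ∈ P, x * y = y * x) :
    ∃ U : Subgroup G, (commutator G).IsComplement' U := by
  classical
  obtain ⟨n, hn⟩ : ∃ n, n = Nat.card (commutator G) := ⟨_, rfl⟩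
  have hn0 : n ≠ 0 := by rw [hn]; exact Nat.card_pos.ne'
  have hU : ∀ p : n.primeFactors, ∃ U : Subgroup G, (∀ x ∈ commutator G, x ∈ U →
      x ^ (n / (p : ℕ) ^ n.factorization p) = 1) ∧ U.index ≤ (p : ℕ) ^ n.factorization p := by
    intro p
    have h := one_prime hA hS p (Nat.prime_of_mem_primeFactors p.2)
    rw [← hn] at h
    exact h
  choose U hU1 hU2 using hU
  refine ⟨⨅ p, U p, ?_⟩
  have hindex : (⨅ p, U p).index ≤ n := by
    refine (Subgroup.index_iInf_le U).trans ?_
    refine (Finset.prod_le_prod' fun p _ => hU2 p).trans (le_of_eq ?_)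
    rw [Finset.prod_coe_sort n.primeFactors (fun p => p ^ n.factorization p)]
    exact Nat.prod_factorization_pow_eq_self hn0
  have hdis : Disjoint (commutator G) (⨅ p, U p) := by
    rw [Subgroup.disjoint_def]
    intro x hx hxU
    rw [Subgroup.mem_iInf] at hxU
    rw [← orderOf_eq_one_iff]
    by_contra hne
    obtain ⟨p, hp, hpx⟩ := Nat.exists_prime_and_dvd hne
    have hxn : orderOf x ∣ n := by
      rw [hn, orderOf_dvd_iff_pow_eq_one]
      exact congrArg Subtype.val (pow_card_eq_one' (x := (⟨x, hx⟩ : commutator G)))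
    have hpn : p ∈ n.primeFactors := Nat.mem_primeFactors.2 ⟨hp, hpx.trans hxn, hn0⟩
    have h1 := hU1 ⟨p, hpn⟩ x hx (hxU _)
    have h2 : p ∣ n / p ^ n.factorization p := hpx.trans (orderOf_dvd_of_pow_eq_one h1)
    exact Nat.not_dvd_ordCompl hp hn0 h2
  refine Subgroup.isComplement'_of_card_mul_and_disjoint ?_ hdis
  apply le_antisymm
  · rw [← Nat.card_prod]
    exact Nat.card_le_card_of_injective _ (Subgroup.mul_injective_of_disjoint hdis)
  · rw [← Subgroup.card_mul_index (⨅ p, U p), mul_comm, ← hn]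
    exact Nat.mul_le_mul_right _ hindex

end H29SM
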