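import Mathlib
import Pool.Agent.H29.SM.Asm
import Pool.Agent.H29.SM.Syl
import Pool.Agent.H29.SM.Ta

/-!
# Metabelian groups at the primes with abelian Sylow subgroups
-/

set_option autoImplicit false
set_option linter.unusedSectionVars false

namespace H29SM

open H25SI
open scoped IsMulCommutative

section
variable {G : Type} [Group G] [Fintype G]

theorem split_sylow (A C : Subgroup G) [A.Normal] (hA : ∀ a ∈ A, ∀ b ∈ A, a * b = b * a)
    (hC : ∀ a ∈ C, ∀ b ∈ C, a * b = b * a) (hAC : A.IsComplement' C) (Λ : (G → ℂ) → ℂ)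
    (hΛ : ∀ H : Subgroup G, A ≤ H → IntegralAt Λ H) :
    ∃ N : ℕ, N ≠ 0 ∧ (∀ p : ℕ, p.Prime → p ∣ N →
        ∃ P : Sylow p G, ∃ x ∈ P, ∃ y ∈ P, x * y ≠ y * x) ∧
      (N : ℤ) • theta Λ ∈ integralityRing G := by
  classical
  have iC : IsMulCommutative C := ⟨⟨fun a b => Subtype.ext (hC a a.2 b b.2)⟩⟩
  obtain ⟨κ, hκ, hker⟩ := exists_split A C hC hAC
  have hQ : ∀ x y : G, x * y * x⁻¹ * y⁻¹ ∈ A := by
    intro x y
    rw [← hker, MonoidHom.mem_ker, map_mul, map_mul, map_mul, map_inv, map_inv, mul_comm (κ x),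
      mul_inv_cancel_right, mul_inv_cancel]
  have iA : IsMulCommutative κ.ker := ⟨⟨fun a b => Subtype.ext
    (hA a (by rw [← hker]; exact a.2) b (by rw [← hker]; exact b.2))⟩⟩
  have i1 : Fintype κ.ker := Fintype.ofFinite _
  have i2 : Fintype C := Fintype.ofFinite _
  obtain ⟨z, hz, hzv⟩ := metabelian A hA hQ Λ hΛ
  have h1 : (Nat.card (commutator G) : ℤ) • theta Λ ∈ integralityRing G := by
    have h2 : (Nat.card (commutator G) : ℤ) • theta Λ = centralValue z := by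
      funext π
      rw [hzv, Pi.smul_apply, zsmul_eq_mul, Int.cast_natCast]
    rw [h2]
    exact Subring.subset_closure (Or.inl ⟨z, hz, rfl⟩)
  choose b hb using fun D : Subgroup C => hΛ (D.comap κ) (by rw [← hker]; exact ker_le κ D)
  refine sub_mem_of_int _ _ (fun p => ∃ P : Sylow p G, ∃ x ∈ P, ∃ y ∈ P, x * y ≠ y * x)
    ⟨_, ?_, h1⟩ fun p hp hQp => ?_
  · have : 0 < Nat.card (commutator G) := Nat.card_pos
    exact_mod_cast this.ne'
  · have : Fact p.Prime := ⟨hp⟩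
    have hS : ∀ P : Sylow p G, ∀ x ∈ P, ∀ y ∈ P, x * y = y * x := by
      intro P x hx y hy
      by_contra h
      exact hQp ⟨P, x, hx, y, hy, h⟩
    obtain ⟨q⟩ := exists_PQ p (Nat.card G) Nat.card_pos
    exact exists_mul (C := C) κ C.subtype hκ Λ b hb p q
      (comm_of_sylow (C := C) κ C.subtype hκ p q hS)

theorem metabelian_sylow (A : Subgroup G) [A.Normal] (hA : ∀ a ∈ A, ∀ b ∈ A, a * b = b * a)
    (hQ : ∀ x y : G, x * y * x⁻¹ * y⁻¹ ∈ A)
    (h : (∃ C : Subgroup G, A.IsComplement' C) ∨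
      ∀ p : ℕ, p.Prime → ∀ P : Sylow p G, ∀ x ∈ P, ∀ y ∈ P, x * y = y * x)
    (Λ : (G → ℂ) → ℂ) (hΛ : ∀ H : Subgroup G, commutator G ≤ H → IntegralAt Λ H) :
    ∃ N : ℕ, N ≠ 0 ∧ (∀ p : ℕ, p.Prime → p ∣ N →
        ∃ P : Sylow p G, ∃ x ∈ P, ∃ y ∈ P, x * y ≠ y * x) ∧
      (N : ℤ) • theta Λ ∈ integralityRing G := by
  have hGA : commutator G ≤ A := by
    rw [commutator_def, Subgroup.commutator_le]
    intro x _ y _
    exact hQ x y
  have hcom : ∀ (B C : Subgroup G), (∀ x y : G, x * y * x⁻¹ * y⁻¹ ∈ B) → B.IsComplement' C →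
      ∀ a ∈ C, ∀ b ∈ C, a * b = b * a := by
    intro B C hB hBC a ha b hb
    have h1 : a * b * a⁻¹ * b⁻¹ ∈ B ⊓ C :=
      ⟨hB a b, C.mul_mem (C.mul_mem (C.mul_mem ha hb) (C.inv_mem ha)) (C.inv_mem hb)⟩
    rw [hBC.disjoint.eq_bot, Subgroup.mem_bot, mul_inv_eq_one, mul_inv_eq_iff_eq_mul] at h1
    exact h1
  rcases h with ⟨C, hAC⟩ | hS
  · exact split_sylow A C hA (hcom A C hQ hAC) hAC Λ fun H hH => hΛ H (hGA.trans hH)
  · have hA' : ∀ a ∈ commutator G, ∀ b ∈ commutator G, a * b = b * a := fun a ha b hb =>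
      hA a (hGA ha) b (hGA hb)
    have hQ' : ∀ x y : G, x * y * x⁻¹ * y⁻¹ ∈ commutator G := fun x y =>
      Subgroup.commutator_mem_commutator (Subgroup.mem_top x) (Subgroup.mem_top y)
    obtain ⟨C, hAC⟩ := split_abelian_sylow hA' hS
    exact split_sylow (commutator G) C hA' (hcom _ C hQ' hAC) hAC Λ hΛ

end

end H29SM
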